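import Pool.Agent.Helper62.AC.Defs

/-! Packet A for MP_917a41_gt: continuous parameters for a `D₂(Σ₃)` set. -/

open Set Topology TopologicalSpace Filter Pool.Agent.Helper62.AC

namespace Pool.Agent.Helper39.ACA

variable {Z : Type} [TopologicalSpace Z]

/-- In a zero-dimensional second countable space an open set is a countable union of clopen
sets. -/
theorem open_eq_iUnion_clopen [SecondCountableTopology Z] (hZ : ZeroDim Z) {O : Set Z}
    (hO : IsOpen O) : ∃ C : ℕ → Set Z, (∀ n, IsClopen (C n)) ∧ O = ⋃ n, C n := by
  obtain ⟨T, hTc, hTS, hTU⟩ := isOpen_sUnion_countable {C : Set Z | IsClopen C ∧ C ⊆ O}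
    (fun C hC => hC.1.isOpen)
  have hc : (insert ∅ T).Countable := hTc.insert ∅
  obtain ⟨C, hC⟩ := hc.exists_eq_range ⟨∅, mem_insert _ _⟩
  refine ⟨C, fun n => ?_, ?_⟩
  · have : C n ∈ insert ∅ T := hC ▸ mem_range_self n
    rcases this with h | h
    · rw [h]; exact isClopen_empty
    · exact (hTS h).1
  · have h1 : O = ⋃₀ {C : Set Z | IsClopen C ∧ C ⊆ O} := by
      ext x
      constructor
      · intro hx
        obtain ⟨v, hv, hxv, hvO⟩ := hZ.exists_subset_of_mem_open hx hO
        exact ⟨v, ⟨hv, hvO⟩, hxv⟩
      · rintro ⟨v, ⟨_, hv⟩, hxv⟩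
        exact hv hxv
    have h2 : ⋃ n, C n = ⋃₀ T := by
      rw [← sUnion_range, ← hC, sUnion_insert, empty_union]
    rw [h2, hTU]
    exact h1

/-- Finitely many changes of a monotone sequence of naturals = boundedness. -/
theorem finite_changes_iff (m : ℕ → ℕ) (hm : Monotone m) :
    {j | m (j + 1) ≠ m j}.Finite ↔ ∃ N, ∀ j, m j ≤ N := by
  constructor
  · intro h
    obtain ⟨J, hJ⟩ := h.bddAbove
    refine ⟨m (J + 1), fun j => ?_⟩
    have key : ∀ k, m (J + 1 + k) = m (J + 1) := by
      intro k
      induction k with
      | zero => rfl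
      | succ k ih =>
        by_contra hne
        have : J + 1 + k ∈ {j | m (j + 1) ≠ m j} := by
          change m (J + 1 + k + 1) ≠ m (J + 1 + k)
          rw [ih]
          exact hne
        have := hJ this
        omega
    rcases le_total j (J + 1) with h1 | h1
    · exact hm h1
    · obtain ⟨k, rfl⟩ := Nat.exists_eq_add_of_le h1
      exact (key k).le
  · rintro ⟨N, hN⟩
    refine Set.Finite.of_finite_image (f := fun j => m (j + 1)) ((Set.finite_Iic N).subset ?_) ?_
    · rintro _ ⟨j, _, rfl⟩
      exact hN _
    · intro a ha b hb hab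
      simp only at hab
      rcases lt_trichotomy a b with h | h | h
      · have h1 : m (a + 1) ≤ m b := hm h
        have h2 : m b ≤ m (b + 1) := hm (Nat.le_succ b)
        exact absurd (by omega : m (b + 1) = m b) hb
      · exact h
      · have h1 : m (b + 1) ≤ m a := hm h
        have h2 : m a ≤ m (a + 1) := hm (Nat.le_succ a)
        exact absurd (by omega : m (a + 1) = m a) ha

/-- Bits for an `F_σ` set. -/
theorem exists_bits [SecondCountableTopology Z] (hZ : ZeroDim Z) (D : ℕ → Set Z)
    (hD : ∀ n, IsClosed (D n)) :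
    ∃ c : Z → ℕ → Bool, Continuous c ∧ ∀ z, z ∈ ⋃ n, D n ↔ {n | c z n = true}.Finite := by
  classical
  have hC := fun n => open_eq_iUnion_clopen hZ (hD n).isOpen_compl
  choose C hCc hCU using hC
  let D' : ℕ → ℕ → Set Z := fun n j => {z | ∀ k < j, z ∉ C n k}
  have hD'c : ∀ n j, IsClopen (D' n j) := by
    intro n j
    have : D' n j = (⋃ k ∈ Finset.range j, C n k)ᶜ := by
      ext z
      simp [D']
    rw [this]
    exact (isClopen_biUnion_finset fun k _ => hCc n k).compl
  have hD'anti : ∀ n i j z, i ≤ j → z ∈ D' n j → z ∈ D' n i := fun n i j z hij hz k hk =>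
    hz k (lt_of_lt_of_le hk hij)
  have hD'D : ∀ n z, z ∈ D n ↔ ∀ j, z ∈ D' n j := by
    intro n z
    have h1 : z ∈ D n ↔ z ∉ ⋃ k, C n k := by
      rw [← hCU n]
      simp
    rw [h1]
    simp only [mem_iUnion, not_exists, D']
    constructor
    · intro h j k _
      exact h k
    · intro h k
      exact h (k + 1) k (Nat.lt_succ_self k)
  have hex : ∀ j z, ∃ n, z ∈ D' n j ∨ n = j := fun j z => ⟨j, Or.inr rfl⟩
  let m : ℕ → Z → ℕ := fun j z => Nat.find (hex j z)
  have hm_le : ∀ j z, m j z ≤ j := fun j z => Nat.find_min' (hex j z) (Or.inr rfl)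
  have hm_mono : ∀ z, Monotone fun j => m j z := by
    intro z
    refine monotone_nat_of_le_succ fun j => ?_
    rcases Nat.find_spec (hex (j + 1) z) with h | h
    · exact Nat.find_min' (hex j z) (Or.inl (hD'anti _ j (j + 1) z (Nat.le_succ j) h))
    · have h1 := hm_le j z
      have h2 : m (j + 1) z = j + 1 := h
      change m j z ≤ m (j + 1) z
      omega
  have hm_cont : ∀ j, Continuous (m j) := by
    intro j
    rw [continuous_discrete_rng]
    intro n
    have hopen : ∀ n, IsClopen {z | z ∈ D' n j ∨ n = j} := by
      intro n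
      by_cases h : n = j
      · have : {z | z ∈ D' n j ∨ n = j} = univ := by
          ext z; simp [h]
        rw [this]; exact isClopen_univ
      · have : {z | z ∈ D' n j ∨ n = j} = D' n j := by
          ext z; simp [h]
        rw [this]; exact hD'c n j
    have : m j ⁻¹' {n} = {z | z ∈ D' n j ∨ n = j} ∩
        ⋂ k ∈ Finset.range n, {z | z ∈ D' k j ∨ k = j}ᶜ := by
      ext z
      simp only [mem_preimage, mem_singleton_iff, m, Nat.find_eq_iff, mem_inter_iff, mem_iInter,
        Finset.mem_range]
      rfl
    rw [this]
    exact (hopen n).isOpen.inter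
      (isOpen_biInter_finset fun k _ => (hopen k).compl.isOpen)
  refine ⟨fun z j => decide (m (j + 1) z ≠ m j z), ?_, fun z => ?_⟩
  · refine continuous_pi fun j => ?_
    have : Continuous fun z => (m (j + 1) z, m j z) := (hm_cont (j + 1)).prodMk (hm_cont j)
    exact (continuous_of_discreteTopology (f := fun q : ℕ × ℕ => decide (q.1 ≠ q.2))).comp this
  · have h1 := finite_changes_iff (fun j => m j z) (hm_mono z)
    have h2 : {n | decide (m (n + 1) z ≠ m n z) = true} = {j | m (j + 1) z ≠ m j z} := by
      ext j; simp
    rw [h2, h1, mem_iUnion]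
    constructor
    · rintro ⟨n, hn⟩
      refine ⟨n, fun j => ?_⟩
      rcases lt_or_ge n j with h | h
      · exact Nat.find_min' (hex j z) (Or.inl ((hD'D n z).1 hn j))
      · exact (hm_le j z).trans h
    · rintro ⟨N, hN⟩
      by_contra hcon
      push Not at hcon
      have h3 : ∀ n, ∃ j, z ∉ D' n j := by
        intro n
        by_contra h
        push Not at h
        exact hcon n ((hD'D n z).2 h)
      choose J hJ using h3
      let K := (Finset.range (N + 1)).sup J + N + 1
      have h4 := hN K
      rcases Nat.find_spec (hex K z) with h | h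
      · change z ∈ D' (m K z) K at h
        refine hJ (m K z) (hD'anti _ _ K z ?_ h)
        have : J (m K z) ≤ (Finset.range (N + 1)).sup J :=
          Finset.le_sup (f := J) (by simpa using Nat.lt_succ_of_le h4)
        omega
      · change m K z = K at h
        omega

/-- The weight `δ^i_n`. -/
noncomputable def wt (c : ℕ → Bool) (n : ℕ) : ℝ :=
  if 0 < n ∧ c (n - 1) = false then 1
  else ∑' k, (if c (n + k) = true then (1 : ℝ) else 0) * (1 / 2) ^ (k + 1)

theorem summable_half : Summable fun k : ℕ => ((1 : ℝ) / 2) ^ (k + 1) := by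
  have := (summable_geometric_two).mul_left (1 / 2 : ℝ)
  refine this.congr fun k => ?_
  rw [pow_succ]; ring

theorem tsum_half : ∑' k : ℕ, ((1 : ℝ) / 2) ^ (k + 1) = 1 := by
  have : (fun k : ℕ => ((1 : ℝ) / 2) ^ (k + 1)) = fun k : ℕ => (1 / 2 : ℝ) * (1 / 2) ^ k := by
    funext k; rw [pow_succ]; ring
  rw [this, tsum_mul_left, tsum_geometric_two]
  norm_num

theorem term_bound (c : ℕ → Bool) (n k : ℕ) :
    0 ≤ (if c (n + k) = true then (1 : ℝ) else 0) * (1 / 2) ^ (k + 1) ∧
      (if c (n + k) = true then (1 : ℝ) else 0) * (1 / 2) ^ (k + 1) ≤ (1 / 2) ^ (k + 1) := by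
  have : (0 : ℝ) < (1 / 2) ^ (k + 1) := by positivity
  split_ifs
  · constructor <;> linarith
  · constructor <;> linarith

theorem summable_term (c : ℕ → Bool) (n : ℕ) :
    Summable fun k => (if c (n + k) = true then (1 : ℝ) else 0) * (1 / 2) ^ (k + 1) :=
  Summable.of_nonneg_of_le (fun k => (term_bound c n k).1) (fun k => (term_bound c n k).2)
    summable_half

theorem wt_nonneg (c : ℕ → Bool) (n : ℕ) : 0 ≤ wt c n := by
  unfold wt
  split_ifs
  · exact zero_le_one
  · exact tsum_nonneg fun k => (term_bound c n k).1

theorem wt_le_one (c : ℕ → Bool) (n : ℕ) : wt c n ≤ 1 := by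
  unfold wt
  split_ifs
  · exact le_rfl
  · have := Summable.tsum_le_tsum (fun k => (term_bound c n k).2) (summable_term c n) summable_half
    rwa [tsum_half] at this

theorem wt_eq_zero (c : ℕ → Bool) (n : ℕ) :
    wt c n = 0 ↔ (n = 0 ∨ c (n - 1) = true) ∧ ∀ k, c (n + k) = false := by
  unfold wt
  split_ifs with h
  · constructor
    · intro h1; norm_num at h1
    · rintro ⟨h1 | h1, _⟩
      · omega
      · rw [h.2] at h1; simp at h1
  · have hs : (∑' k, (if c (n + k) = true then (1 : ℝ) else 0) * (1 / 2) ^ (k + 1)) = 0 ↔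
        ∀ k, c (n + k) = false := by
      constructor
      · intro h0 k
        have := (hasSum_zero_iff_of_nonneg (fun k => (term_bound c n k).1)).1
          (h0 ▸ (summable_term c n).hasSum)
        have := congrFun this k
        by_contra hk
        rw [Bool.not_eq_false] at hk
        simp [hk] at this
      · intro h0
        simp [h0]
    rw [hs]
    refine ⟨fun h0 => ⟨?_, h0⟩, fun h0 => h0.2⟩
    by_contra h1
    push Not at h1
    exact h ⟨Nat.pos_of_ne_zero h1.1, by simpa using h1.2⟩

theorem continuous_wt (n : ℕ) : Continuous fun c : ℕ → Bool => wt c n := by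
  have h1 : Continuous fun c : ℕ → Bool =>
      ∑' k, (if c (n + k) = true then (1 : ℝ) else 0) * (1 / 2) ^ (k + 1) := by
    refine continuous_tsum (fun k => ?_) summable_half fun k c => ?_
    · refine Continuous.mul ?_ continuous_const
      exact (continuous_of_discreteTopology (f := fun b : Bool => if b = true then (1 : ℝ) else 0)).comp
        (continuous_apply (n + k))
    · rw [Real.norm_of_nonneg (term_bound c n k).1]
      exact (term_bound c n k).2
  unfold wt
  by_cases hn : 0 < n
  · have : (fun c : ℕ → Bool => if 0 < n ∧ c (n - 1) = false then (1 : ℝ)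
        else ∑' k, (if c (n + k) = true then (1 : ℝ) else 0) * (1 / 2) ^ (k + 1)) =
        fun c : ℕ → Bool => (if c (n - 1) = false then (1 : ℝ) else 0) +
          (if c (n - 1) = true then (1 : ℝ) else 0) *
          ∑' k, (if c (n + k) = true then (1 : ℝ) else 0) * (1 / 2) ^ (k + 1) := by
      funext c
      cases h : c (n - 1) <;> simp [hn]
    rw [this]
    refine Continuous.add ?_ (Continuous.mul ?_ h1)
    · exact (continuous_of_discreteTopology (f := fun b : Bool => if b = false then (1 : ℝ) else 0)).comp
        (continuous_apply (n - 1))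
    · exact (continuous_of_discreteTopology (f := fun b : Bool => if b = true then (1 : ℝ) else 0)).comp
        (continuous_apply (n - 1))
  · simpa [hn] using h1

/-- A row with finitely many ones has a zero weight. -/
theorem exists_zero_of_finite (c : ℕ → Bool) (hc : {n | c n = true}.Finite) :
    ∃ n, wt c n = 0 := by
  by_cases hne : {n | c n = true}.Nonempty
  · obtain ⟨n, hn, hmax⟩ := hc.exists_maximal hne
    refine ⟨n + 1, (wt_eq_zero c (n + 1)).2 ⟨Or.inr hn, fun k => ?_⟩⟩
    by_contra h
    rw [Bool.not_eq_false] at h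
    have := hmax h (by omega : n ≤ n + 1 + k)
    omega
  · refine ⟨0, (wt_eq_zero c 0).2 ⟨Or.inl rfl, fun k => ?_⟩⟩
    by_contra h
    rw [Bool.not_eq_false] at h
    exact hne ⟨_, h⟩

theorem no_zero_of_infinite (c : ℕ → Bool) (hc : ¬ {n | c n = true}.Finite) (n : ℕ) :
    wt c n ≠ 0 := by
  intro h
  have h1 := ((wt_eq_zero c n).1 h).2
  apply hc
  refine (Set.finite_Iio n).subset fun k hk => ?_
  by_contra hkn
  rw [mem_Iio, not_lt] at hkn
  obtain ⟨l, rfl⟩ := Nat.exists_eq_add_of_le hkn
  rw [mem_ofPred_eq, h1 l] at hk
  simp at hk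

theorem zeros_finite (c : ℕ → Bool) : {n | wt c n = 0}.Finite := by
  refine Set.Subsingleton.finite fun a ha b hb => ?_
  rw [mem_ofPred_eq, wt_eq_zero] at ha hb
  by_contra hne
  rcases Nat.lt_or_gt_of_ne hne with h | h
  · rcases hb.1 with h1 | h1
    · omega
    · have := ha.2 (b - 1 - a)
      rw [show a + (b - 1 - a) = b - 1 by omega, h1] at this
      simp at this
  · rcases ha.1 with h1 | h1
    · omega
    · have := hb.2 (a - 1 - b)
      rw [show b + (a - 1 - b) = a - 1 by omega, h1] at this
      simp at this

theorem stmtA : StmtA := by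
  classical
  intro Z _ _ hZ B hB
  obtain ⟨P, S, ⟨F, hF, rfl⟩, ⟨U, hU, rfl⟩, rfl⟩ := hB
  choose h hh hhF using fun i => exists_bits hZ (F i) (hF i)
  choose d hd hdU using fun i => exists_bits hZ (fun j => (U i j)ᶜ) (fun j => (hU i j).isClosed_compl)
  let cc : Z → ℕ → ℕ → Bool := fun z i n => decide (∃ i' ∈ Finset.range (i + 1), d i' z n = true)
  have hcc : ∀ i, Continuous fun z => cc z i := by
    intro i
    refine continuous_pi fun n => ?_
    rw [continuous_discrete_rng]
    have hopen : IsClopen {z | ∃ i' ∈ Finset.range (i + 1), d i' z n = true} := by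
      have : {z | ∃ i' ∈ Finset.range (i + 1), d i' z n = true} =
          ⋃ i' ∈ Finset.range (i + 1), {z | d i' z n = true} := by
        ext z; simp
      rw [this]
      refine isClopen_biUnion_finset fun i' _ => ?_
      exact (isClopen_discrete ({true} : Set Bool)).preimage
        ((continuous_apply n).comp (hd i') : Continuous fun z => d i' z n)
    intro b
    cases b
    · have : (fun z => cc z i n) ⁻¹' {false} = {z | ∃ i' ∈ Finset.range (i + 1), d i' z n = true}ᶜ := by
        ext z
        simp [cc]
      rw [this]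
      exact hopen.compl.isOpen
    · have : (fun z => cc z i n) ⁻¹' {true} = {z | ∃ i' ∈ Finset.range (i + 1), d i' z n = true} := by
        ext z
        simp [cc]
      rw [this]
      exact hopen.isOpen
  have hccfin : ∀ z i, {n | cc z i n = true}.Finite ↔ ∀ i' ≤ i, z ∉ ⋂ j, U i' j := by
    intro z i
    have h1 : {n | cc z i n = true} = ⋃ i' ∈ Finset.range (i + 1), {n | d i' z n = true} := by
      ext n; simp [cc]
    have h2 : ∀ i', {n | d i' z n = true}.Finite ↔ z ∉ ⋂ j, U i' j := by
      intro i'
      rw [← hdU i' z]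
      simp
    constructor
    · intro hf i' hi'
      rw [← h2]
      refine hf.subset ?_
      rw [h1]
      exact subset_biUnion_of_mem (u := fun i' => {n | d i' z n = true})
        (by simpa using Nat.lt_succ_of_le hi')
    · intro hall
      rw [h1]
      refine Set.Finite.biUnion (Finset.finite_toSet _) fun i' hi' => ?_
      rw [h2]
      exact hall i' (by simpa [Nat.lt_succ_iff] using hi')
  let δ : Z → ℕ → ℝ := fun z n => match n with
    | 0 => 0
    | m + 1 => wt (cc z m.unpair.1) m.unpair.2
  refine ⟨δ, fun z i => h i z, ?_, ?_, ?_, fun z => rfl, ?_⟩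
  · refine continuous_pi fun n => ?_
    cases n with
    | zero => exact continuous_const
    | succ m => exact (continuous_wt m.unpair.2).comp (hcc m.unpair.1)
  · exact continuous_pi fun i => hh i
  · intro z n
    cases n with
    | zero => exact ⟨le_rfl, zero_le_one⟩
    | succ m => exact ⟨wt_nonneg _ _, wt_le_one _ _⟩
  · intro z
    rw [mem_inter_iff]
    refine and_congr ?_ ?_
    · rw [mem_iInter]
      exact forall_congr' fun i => hhF i z
    · constructor
      · intro hz
        rw [mem_iUnion] at hz
        obtain ⟨i0, hi0⟩ := hz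
        have hfin : (⋃ i ∈ Finset.range i0, (fun n => Nat.pair i n + 1) '' {n | wt (cc z i) n = 0}).Finite :=
          Set.Finite.biUnion (Finset.finite_toSet _) fun i _ => (zeros_finite _).image _
        refine (hfin.insert 0).subset fun n hn => ?_
        cases n with
        | zero => exact mem_insert _ _
        | succ m =>
          right
          change wt (cc z m.unpair.1) m.unpair.2 = 0 at hn
          simp only [mem_iUnion]
          refine ⟨m.unpair.1, ?_, m.unpair.2, hn, ?_⟩
          · by_contra hlt
            rw [Finset.mem_range, not_lt] at hlt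
            refine no_zero_of_infinite _ ?_ _ hn
            rw [hccfin]
            intro hall
            exact hall i0 hlt hi0
          · simp
      · intro hfin
        by_contra hz
        rw [mem_iUnion] at hz
        push Not at hz
        have h3 : ∀ i, ∃ n, wt (cc z i) n = 0 := fun i =>
          exists_zero_of_finite _ ((hccfin z i).2 fun i' _ => hz i')
        choose N hN using h3
        have : (range fun i => Nat.pair i (N i) + 1).Finite := by
          refine hfin.subset ?_
          rintro _ ⟨i, rfl⟩
          change wt (cc z (Nat.pair i (N i)).unpair.1) (Nat.pair i (N i)).unpair.2 = 0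
          simp [hN i]
        refine Set.infinite_range_of_injective ?_ this
        intro i i' hii
        simp only [add_left_inj, Nat.pair_eq_pair] at hii
        exact hii.1

end Pool.Agent.Helper39.ACA
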