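import Pool.Agent.Helper62.AC.Defs

/-! Packet B for MP_917a41_gt: a `Σ₃` set which is not `Π₃`. -/

open Set Topology TopologicalSpace Filter Pool.Agent.Helper62.AC

namespace Pool.Agent.Helper39.ACB

/-- Enumeration of a countable basis. -/
theorem exists_basis_seq (Z : Type) [TopologicalSpace Z] [SecondCountableTopology Z] :
    ∃ U : ℕ → Set Z, (∀ n, IsOpen (U n)) ∧ ∀ O : Set Z, IsOpen O →
      O = ⋃ n ∈ {n | U n ⊆ O}, U n := by
  obtain ⟨b, hbc, -, hb⟩ := exists_countable_basis Z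
  have hc : (insert ∅ b).Countable := hbc.insert ∅
  obtain ⟨U, hU⟩ := hc.exists_eq_range ⟨∅, mem_insert _ _⟩
  refine ⟨U, fun n => ?_, fun O hO => ?_⟩
  · have : U n ∈ insert ∅ b := hU ▸ mem_range_self n
    rcases this with h | h
    · rw [h]; exact isOpen_empty
    · exact hb.isOpen h
  · ext x
    simp only [mem_iUnion, mem_ofPred_eq]
    constructor
    · intro hx
      obtain ⟨v, hv, hxv, hvO⟩ := hb.exists_subset_of_mem_open hx hO
      have : v ∈ range U := hU ▸ mem_insert_of_mem _ hv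
      obtain ⟨n, rfl⟩ := this
      exact ⟨n, hvO, hxv⟩
    · rintro ⟨n, hn, hx⟩
      exact hn hx

theorem stmtB : StmtB := by
  classical
  have hb : PolishSpace Bool := inferInstance
  have hP : PolishSpace (ℕ → Bool) := inferInstance
  refine ⟨ℕ → Bool, inferInstance, hP, isTopologicalBasis_isClopen, ?_⟩
  obtain ⟨U, hUo, hU⟩ := exists_basis_seq (ℕ → Bool)
  let cd : ℕ → ℕ → ℕ → ℕ := fun i j s => Nat.pair i (Nat.pair j s)
  let V : ℕ → ℕ → (ℕ → Bool) → Set (ℕ → Bool) := fun i j y => ⋃ s ∈ {s | y (cd i j s) = true}, U s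
  refine ⟨⋃ i, ⋂ j, {x | x ∈ V i j x}, ⟨fun i j => {x | x ∈ V i j x}, fun i j => ?_, rfl⟩, ?_⟩
  · have : {x | x ∈ V i j x} = ⋃ s, ({x : ℕ → Bool | x (cd i j s) = true} ∩ U s) := by
      ext x
      simp [V]
    change IsOpen {x | x ∈ V i j x}
    rw [this]
    refine isOpen_iUnion fun s => IsOpen.inter ?_ (hUo s)
    exact (isOpen_discrete ({true} : Set Bool)).preimage
      (continuous_apply (cd i j s) : Continuous fun x : ℕ → Bool => x (cd i j s))
  · rintro ⟨F, hF, hB⟩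
    let y : ℕ → Bool := fun k => decide (U (k.unpair.2.unpair.2) ⊆ (F k.unpair.1 k.unpair.2.unpair.1)ᶜ)
    have hy : ∀ i j, V i j y = (F i j)ᶜ := by
      intro i j
      rw [hU (F i j)ᶜ (hF i j).isOpen_compl]
      ext x
      simp [V, y, cd]
    have key : y ∈ (⋂ i, ⋃ j, F i j) ↔ y ∉ (⋂ i, ⋃ j, F i j) := by
      conv_lhs => rw [← hB]
      simp only [mem_iUnion, mem_iInter, mem_ofPred_eq, hy, mem_compl_iff, not_forall, not_exists]
    by_cases h : y ∈ (⋂ i, ⋃ j, F i j)
    · exact key.1 h h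
    · exact h (key.2 h)

end Pool.Agent.Helper39.ACB
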