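import Mathlib

set_option autoImplicit false

namespace Pool.Agent.Helper39.Apery

/-- the numerator polynomial of the weight function -/
def rh (n j w : ℚ) : ℚ :=
  j ^ 2 * (12 * n * (n + 1) - 2 * j * (2 * n + 1) - j ^ 2) + 4 * n * (n + j + 4) * (1 - w * w)

/-- `X` part -/
def X (n u v : ℚ) : ℚ := (n - u) ^ 2 * (n + 1) * (n + 1 + v) * (n + v) * (n + 1 - u) ^ 2

/-- the key polynomial -/
def Q (n u v : ℚ) : ℚ :=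
  (u + v) ^ 4 * (X n u v + X n v u - 2 * n * (n + u) * (n + v) * (n + 1 - u) ^ 2 * (n + 1 - v) ^ 2)
  + u ^ 3 * (n + v) * (n + 1 - v) ^ 2 * (v - u + 1) * rh n (u + v) (v - u + 1)
  - v ^ 3 * (n + u) * (n + 1 - u) ^ 2 * (v - u - 1) * rh n (u + v) (v - u - 1)

theorem Q_zero (n u : ℚ) : Q n u u = 0 := by
  unfold Q X rh; ring

theorem Q_one (u z : ℚ) (hu : 0 ≤ u) (hz : 0 ≤ z) : 0 ≤ Q (u + 1 + z) u (u + 1) := by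
  have h : Q (u + 1 + z) u (u + 1) =
    32 + 120*z + 176*z^2 + 126*z^3 + 44*z^4 + 6*z^5 + 296*u + 1068*u*z + 1496*u*z^2 + 1014*u*z^3
     + 332*u*z^4 + 42*u*z^5 + 1080*u^2 + 3688*u^2*z + 4820*u^2*z^2 + 2992*u^2*z^3 + 876*u^2*z^4
     + 96*u^2*z^5 + 1684*u^3 + 5178*u^3*z + 5872*u^3*z^2 + 2994*u^3*z^3 + 664*u^3*z^4 + 48*u^3*z^5
     + 1156*u^4 + 3144*u^4*z + 2980*u^4*z^2 + 1152*u^4*z^3 + 160*u^4*z^4 + 288*u^5 + 704*u^5*z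
     + 544*u^5*z^2 + 128*u^5*z^3 := by
    unfold Q X rh; ring
  rw [h]; positivity

theorem Q_bd (u w : ℚ) (hu : 0 ≤ u) (hw : 0 ≤ w) :
    0 ≤ Q (u + w + 1) u (u + w + 2) := by
  have h : Q (u + w + 1) u (u + w + 2) =
    512 + 4096*w + 14848*w^2 + 31808*w^3 + 44416*w^4 + 42288*w^5 + 27968*w^6 + 12844*w^7
     + 4014*w^8 + 813*w^9 + 96*w^10 + 5*w^11 + 2048*u + 15872*u*w + 53248*u*w^2 + 101856*u*w^3
     + 123248*u*w^4 + 98800*u*w^5 + 53256*u*w^6 + 19094*u*w^7 + 4363*u*w^8 + 574*u*w^9 + 33*u*w^10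
     + 3200*u^2 + 23424*u^2*w + 70880*u^2*w^2 + 118320*u^2*w^3 + 121272*u^2*w^4 + 79664*u^2*w^5
     + 33690*u^2*w^6 + 8871*u^2*w^7 + 1322*u^2*w^8 + 85*u^2*w^9 + 2432*u^3 + 16448*u^3*w
     + 43968*u^3*w^2 + 62632*u^3*w^3 + 52868*u^3*w^4 + 27346*u^3*w^5 + 8517*u^3*w^6 + 1466*u^3*w^7
     + 107*u^3*w^8 + 896*u^4 + 5504*u^4*w + 12736*u^4*w^2 + 15056*u^4*w^3 + 10048*u^4*w^4
     + 3836*u^4*w^5 + 782*u^4*w^6 + 66*u^4*w^7 + 128*u^5 + 704*u^5*w + 1376*u^5*w^2 + 1296*u^5*w^3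
     + 640*u^5*w^4 + 160*u^5*w^5 + 16*u^5*w^6 := by
    unfold Q X rh; ring
  rw [h]; positivity

def cm0 (u z : ℚ) : ℚ :=
    2304 + 4416*z + 4768*z^2 + 2912*z^3 + 864*z^4 + 96*z^5 + 14976*u + 36480*u*z + 40064*u*z^2
     + 21280*u*z^3 + 5248*u*z^4 + 480*u*z^5 + 34560*u^2 + 89280*u^2*z + 93280*u^2*z^2
     + 43808*u^2*z^3 + 9120*u^2*z^4 + 672*u^2*z^5 + 31872*u^3 + 79776*u^3*z + 74944*u^3*z^2
     + 28832*u^3*z^3 + 4416*u^3*z^4 + 192*u^3*z^5 + 12864*u^4 + 30336*u^4*z + 24896*u^4*z^2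
     + 7168*u^4*z^3 + 640*u^4*z^4 + 1920*u^5 + 4224*u^5*z + 2944*u^5*z^2 + 512*u^5*z^3

theorem cm0_nn (u z : ℚ) (h0 : 0 ≤ u) (h1 : 0 ≤ z) : 0 ≤ cm0 u z := by
  unfold cm0; positivity

def cm1 (u z : ℚ) : ℚ :=
    17664 + 26432*z + 20048*z^2 + 9200*z^3 + 2224*z^4 + 208*z^5 + 73920*u + 131584*u*z
     + 115664*u*z^2 + 52416*u*z^3 + 11152*u*z^4 + 864*u*z^5 + 122976*u^2 + 244464*u^2*z
     + 220432*u^2*z^2 + 90640*u^2*z^3 + 16080*u^2*z^4 + 960*u^2*z^5 + 87952*u^3 + 175584*u^3*z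
     + 147440*u^3*z^2 + 49344*u^3*z^3 + 6176*u^3*z^4 + 192*u^3*z^5 + 27712*u^4 + 53120*u^4*z
     + 40000*u^4*z^2 + 9728*u^4*z^3 + 640*u^4*z^4 + 3136*u^5 + 5632*u^5*z + 3712*u^5*z^2
     + 512*u^5*z^3

theorem cm1_nn (u z : ℚ) (h0 : 0 ≤ u) (h1 : 0 ≤ z) : 0 ≤ cm1 u z := by
  unfold cm1; positivity

def cm2 (u z : ℚ) : ℚ :=
    61696 + 80944*z + 47024*z^2 + 15472*z^3 + 2736*z^4 + 192*z^5 + 190304*u + 250816*u*z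
     + 161568*u*z^2 + 56848*u*z^3 + 9616*u*z^4 + 576*u*z^5 + 231312*u^2 + 319728*u^2*z
     + 224536*u^2*z^2 + 75368*u^2*z^3 + 10584*u^2*z^4 + 456*u^2*z^5 + 125328*u^3 + 168416*u^3*z
     + 115616*u^3*z^2 + 31376*u^3*z^3 + 2864*u^3*z^4 + 48*u^3*z^5 + 29888*u^4 + 36416*u^4*z
     + 23456*u^4*z^2 + 4352*u^4*z^3 + 160*u^4*z^4 + 2464*u^5 + 2464*u^5*z + 1504*u^5*z^2
     + 128*u^5*z^3

theorem cm2_nn (u z : ℚ) (h0 : 0 ≤ u) (h1 : 0 ≤ z) : 0 ≤ cm2 u z := by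
  unfold cm2; positivity

def cm3 (u z : ℚ) : ℚ :=
    121984 + 144832*z + 69992*z^2 + 17416*z^3 + 2184*z^4 + 104*z^5 + 304752*u + 317584*u*z
     + 147016*u*z^2 + 36488*u*z^3 + 4328*u*z^4 + 168*u*z^5 + 288832*u^2 + 273496*u^2*z
     + 131996*u^2*z^2 + 32024*u^2*z^3 + 3084*u^2*z^4 + 72*u^2*z^5 + 122440*u^3 + 97568*u^3*z
     + 46104*u^3*z^2 + 8784*u^3*z^3 + 440*u^3*z^4 + 22768*u^4 + 12976*u^4*z + 5904*u^4*z^2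
     + 640*u^4*z^3 + 1456*u^5 + 352*u^5*z + 192*u^5*z^2

theorem cm3_nn (u z : ℚ) (h0 : 0 ≤ u) (h1 : 0 ≤ z) : 0 ≤ cm3 u z := by
  unfold cm3; positivity

def cm4 (u z : ℚ) : ℚ :=
    151072 + 161132*z + 66418*z^2 + 13102*z^3 + 1198*z^4 + 38*z^5 + 317160*u + 273000*u*z
     + 93472*u*z^2 + 15454*u*z^3 + 1088*u*z^4 + 18*u*z^5 + 244648*u^2 + 166924*u^2*z
     + 50480*u^2*z^2 + 7268*u^2*z^3 + 336*u^2*z^4 + 83656*u^3 + 39818*u^3*z + 9944*u^3*z^2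
     + 914*u^3*z^3 + 12468*u^4 + 2952*u^4*z + 532*u^4*z^2 + 640*u^5

theorem cm4_nn (u z : ℚ) (h0 : 0 ≤ u) (h1 : 0 ≤ z) : 0 ≤ cm4 u z := by
  unfold cm4; positivity

def cm5 (u z : ℚ) : ℚ :=
    124032 + 116196*z + 40353*z^2 + 6315*z^3 + 423*z^4 + 9*z^5 + 219284*u + 156696*u*z
     + 40397*u*z^2 + 4334*u*z^3 + 149*u*z^4 + 138326*u^2 + 70783*u^2*z + 12944*u^2*z^2
     + 823*u^2*z^3 + 37801*u^3 + 11606*u^3*z + 1151*u^3*z^2 + 4352*u^4 + 516*u^4*z + 160*u^5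

theorem cm5_nn (u z : ℚ) (h0 : 0 ≤ u) (h1 : 0 ≤ z) : 0 ≤ cm5 u z := by
  unfold cm5; positivity

def cm6 (u z : ℚ) : ℚ :=
    69472 + 55341*z + 15602*z^2 + 1848*z^3 + 84*z^4 + 1*z^5 + 101490*u + 58584*u*z + 11064*u*z^2
     + 723*u*z^3 + 9*u*z^4 + 50965*u^2 + 19283*u^2*z + 2043*u^2*z^2 + 35*u^2*z^3 + 10547*u^3
     + 2093*u^3*z + 63*u^3*z^2 + 834*u^4 + 52*u^4*z + 16*u^5

theorem cm6_nn (u z : ℚ) (h0 : 0 ≤ u) (h1 : 0 ≤ z) : 0 ≤ cm6 u z := by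
  unfold cm6; positivity

def cm7 (u z : ℚ) : ℚ :=
    26728 + 17302*z + 3708*z^2 + 297*z^3 + 7*z^4 + 31077*u + 13637*u*z + 1707*u*z^2 + 53*u*z^3
     + 11705*u^2 + 2981*u^2*z + 147*u^2*z^2 + 1633*u^3 + 167*u^3*z + 66*u^4

theorem cm7_nn (u z : ℚ) (h0 : 0 ≤ u) (h1 : 0 ≤ z) : 0 ≤ cm7 u z := by
  unfold cm7; positivity

def cm8 (u z : ℚ) : ℚ :=
    6957 + 3416*z + 493*z^2 + 20*z^3 + 6041*u + 1790*u*z + 112*u*z^2 + 1519*u^2 + 197*u^2*z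
     + 107*u^3

theorem cm8_nn (u z : ℚ) (h0 : 0 ≤ u) (h1 : 0 ≤ z) : 0 ≤ cm8 u z := by
  unfold cm8; positivity

def cm9 (u z : ℚ) : ℚ :=
    1171 + 386*z + 28*z^2 + 675*u + 101*u*z + 85*u^2

theorem cm9_nn (u z : ℚ) (h0 : 0 ≤ u) (h1 : 0 ≤ z) : 0 ≤ cm9 u z := by
  unfold cm9; positivity

def cm10 (u z : ℚ) : ℚ :=
    115 + 19*z + 33*u

theorem cm10_nn (u z : ℚ) (h0 : 0 ≤ u) (h1 : 0 ≤ z) : 0 ≤ cm10 u z := by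
  unfold cm10; positivity

def cm11 (u z : ℚ) : ℚ :=
    5

theorem cm11_nn (u z : ℚ) (h0 : 0 ≤ u) (h1 : 0 ≤ z) : 0 ≤ cm11 u z := by
  unfold cm11; positivity

theorem Q_main_eq (u w z : ℚ) : Q (u + w + 2 + z) u (u + w + 2) =
    cm0 u z * w ^ 0 + cm1 u z * w ^ 1 + cm2 u z * w ^ 2 + cm3 u z * w ^ 3 + cm4 u z * w ^ 4 + cm5 u z * w ^ 5 + cm6 u z * w ^ 6 + cm7 u z * w ^ 7 + cm8 u z * w ^ 8 + cm9 u z * w ^ 9 + cm10 u z * w ^ 10 + cm11 u z * w ^ 11 := by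
  unfold Q X rh cm0 cm1 cm2 cm3 cm4 cm5 cm6 cm7 cm8 cm9 cm10 cm11
  ring

theorem Q_main (u w z : ℚ) (hu : 0 ≤ u) (hw : 0 ≤ w) (hz : 0 ≤ z) :
    0 ≤ Q (u + w + 2 + z) u (u + w + 2) := by
  rw [Q_main_eq]
  have h0 := cm0_nn u z hu hz
  have h1 := cm1_nn u z hu hz
  have h2 := cm2_nn u z hu hz
  have h3 := cm3_nn u z hu hz
  have h4 := cm4_nn u z hu hz
  have h5 := cm5_nn u z hu hz
  have h6 := cm6_nn u z hu hz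
  have h7 := cm7_nn u z hu hz
  have h8 := cm8_nn u z hu hz
  have h9 := cm9_nn u z hu hz
  have h10 := cm10_nn u z hu hz
  have h11 := cm11_nn u z hu hz
  positivity

end Pool.Agent.Helper39.Apery
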