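import Mathlib
import Pool.Agent.Helper39.AperyPoly

set_option autoImplicit false

namespace Pool.Agent.Helper39.Apery

open Finset

def a (n k : ℕ) : ℚ := (n.choose k : ℚ) ^ 2 * ((n + k).choose k : ℚ)

def B (N v : ℕ) : ℚ := ((N + 1).choose v : ℚ) ^ 2 * ((N + v).choose v : ℚ)

theorem a_zero {n k : ℕ} (h : n < k) : a n k = 0 := by
  unfold a; rw [Nat.choose_eq_zero_of_lt h]; simp

theorem B_nn (N v : ℕ) : 0 ≤ B N v := by unfold B; positivity

theorem a_eq (N v : ℕ) (hv : v ≤ N + 1) :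
    ((N : ℚ) + 1) ^ 2 * a N v = ((N : ℚ) + 1 - v) ^ 2 * B N v := by
  have h := Nat.choose_mul_succ_eq N v
  have h' : (N.choose v : ℚ) * (N + 1) = ((N + 1).choose v : ℚ) * ((N : ℚ) + 1 - v) := by
    have := congrArg (Nat.cast : ℕ → ℚ) h
    push_cast [Nat.cast_sub hv] at this
    exact this
  unfold a B
  linear_combination ((N + v).choose v : ℚ) * ((N.choose v : ℚ) * (N + 1) +
    ((N + 1).choose v : ℚ) * ((N : ℚ) + 1 - v)) * h'

theorem choose_up (N v : ℕ) : ((N + 1 + v).choose v : ℚ) * (N + 1) =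
    ((N + v).choose v : ℚ) * (N + 1 + v) := by
  have h := Nat.choose_mul_succ_eq (N + v) v
  have e1 : N + v + 1 - v = N + 1 := by omega
  rw [e1] at h
  have e2 : N + 1 + v = N + v + 1 := by omega
  rw [e2]
  have := congrArg (Nat.cast : ℕ → ℚ) h
  push_cast at this
  linear_combination -this

theorem a_succ (N v : ℕ) :
    ((N : ℚ) + 1) * a (N + 1) v = ((N : ℚ) + 1 + v) * B N v := by
  unfold a B
  linear_combination ((N + 1).choose v : ℚ) ^ 2 * choose_up N v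

theorem a_pred (m u : ℕ) (hu : u ≤ m + 1) :
    ((m : ℚ) + 1) * (m + 1 + u) * a m u = ((m : ℚ) + 1 - u) ^ 2 * a (m + 1) u := by
  have h1 := a_eq m u hu
  have h2 := a_succ m u
  have hp : (0 : ℚ) < (m : ℚ) + 1 := by positivity
  have : ((m : ℚ) + 1) * (((m : ℚ) + 1) * (m + 1 + u) * a m u) =
      ((m : ℚ) + 1) * (((m : ℚ) + 1 - u) ^ 2 * a (m + 1) u) := by
    linear_combination ((m : ℚ) + 1 + u) * h1 - ((m : ℚ) + 1 - u) ^ 2 * h2
  exact mul_left_cancel₀ hp.ne' this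

theorem a_shift (N p : ℕ) :
    a N p * (((N : ℚ) + (p + 1 : ℕ)) * ((N : ℚ) + 1) ^ 2) = ((p + 1 : ℕ) : ℚ) ^ 3 * B N (p + 1) := by
  have h1 := Nat.add_one_mul_choose_eq N p
  have h2 := Nat.add_one_mul_choose_eq (N + p) p
  have h1' := congrArg (Nat.cast : ℕ → ℚ) h1
  have h2' := congrArg (Nat.cast : ℕ → ℚ) h2
  push_cast at h1' h2'
  unfold a B
  have e : N + (p + 1) = N + p + 1 := by omega
  rw [e]
  push_cast
  have h3 : ((N : ℚ) + 1) ^ 2 * (N.choose p : ℚ) ^ 2 =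
      ((N + 1).choose (p + 1) : ℚ) ^ 2 * ((p : ℚ) + 1) ^ 2 := by
    linear_combination (((N : ℚ) + 1) * (N.choose p : ℚ) +
      ((N + 1).choose (p + 1) : ℚ) * ((p : ℚ) + 1)) * h1'
  linear_combination ((N + p).choose p : ℚ) * ((N : ℚ) + p + 1) * h3 +
    ((N + 1).choose (p + 1) : ℚ) ^ 2 * ((p : ℚ) + 1) ^ 2 * h2'

/-- antisymmetric flow -/
def H (N : ℕ) (j : ℚ) (p q : ℕ) : ℚ :=
  ((q : ℚ) - p) * rh N j ((q : ℚ) - p) * (a N p * a N q)

theorem H_anti (N : ℕ) (j : ℚ) (p q : ℕ) : H N j p q = - H N j q p := by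
  unfold H rh; ring

def G1 (N : ℕ) (j : ℚ) : ℕ → ℕ → ℚ
  | 0, _ => 0
  | p + 1, v => H N j p v

def G2 (N : ℕ) (j : ℚ) : ℕ → ℕ → ℚ
  | _, 0 => 0
  | u, q + 1 => H N j u q

theorem G_swap (N : ℕ) (j : ℚ) (u v : ℕ) : G1 N j v u = - G2 N j u v := by
  cases v with
  | zero => cases u <;> simp [G1, G2]
  | succ q =>
    cases u <;> simp only [G1, G2] <;> rw [H_anti]

theorem G1_eq (N : ℕ) (j : ℚ) (u v : ℕ) :
    G1 N j u v * (((N : ℚ) + u) * ((N : ℚ) + 1) ^ 2) =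
      ((v : ℚ) - u + 1) * rh N j ((v : ℚ) - u + 1) * ((u : ℚ) ^ 3 * B N u) * a N v := by
  cases u with
  | zero => simp [G1]
  | succ p =>
    simp only [G1]
    unfold H
    have h := a_shift N p
    have e : (v : ℚ) - ((p + 1 : ℕ) : ℚ) + 1 = (v : ℚ) - p := by push_cast; ring
    rw [e]
    linear_combination ((v : ℚ) - p) * rh N j ((v : ℚ) - p) * a N v * h

theorem G2_eq (N : ℕ) (j : ℚ) (u v : ℕ) :
    G2 N j u v * (((N : ℚ) + v) * ((N : ℚ) + 1) ^ 2) =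
      ((v : ℚ) - u - 1) * rh N j ((v : ℚ) - u - 1) * ((v : ℚ) ^ 3 * B N v) * a N u := by
  cases v with
  | zero => cases u <;> simp [G2]
  | succ q =>
    have hG : G2 N j u (q + 1) = H N j u q := by cases u <;> rfl
    rw [hG]
    unfold H
    have h := a_shift N q
    have e : ((q + 1 : ℕ) : ℚ) - (u : ℚ) - 1 = (q : ℚ) - u := by push_cast; ring
    rw [e]
    linear_combination ((q : ℚ) - u) * rh N j ((q : ℚ) - u) * a N u * h

/-- the corrected symmetrised term; here `N = m + 1`. -/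
def T (m u v : ℕ) : ℚ :=
  ((m + 1 : ℕ) : ℚ) * ((u : ℚ) + v) ^ 4 *
    (a m u * a (m + 2) v + a (m + 2) u * a m v - 2 * (a (m + 1) u * a (m + 1) v))
  + G1 (m + 1) ((u : ℚ) + v) u v - G2 (m + 1) ((u : ℚ) + v) u v

theorem T_symm (m u v : ℕ) : T m u v = T m v u := by
  unfold T
  have h1 := G_swap (m + 1) ((u : ℚ) + v) u v
  have h2 := G_swap (m + 1) ((u : ℚ) + v) v u
  have e : (v : ℚ) + u = (u : ℚ) + v := by ring
  rw [e]
  linear_combination h2 - h1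

theorem a_pred' (m u : ℕ) (hu : u ≤ m + 2) :
    ((m : ℚ) + 1) * (m + 1 + u) * a m u = ((m : ℚ) + 1 - u) ^ 2 * a (m + 1) u := by
  rcases Nat.lt_or_ge (m + 1) u with h | h
  · rw [a_zero (show m < u by omega), a_zero (show m + 1 < u by omega)]; ring
  · exact a_pred m u h

theorem P1 (m u v : ℕ) (hu : u ≤ m + 2) (hv : v ≤ m + 2) :
    a m u * a (m + 2) v * (((m + 1 : ℕ) : ℚ) * (((m + 1 : ℕ) : ℚ) + u) *
      (((m + 1 : ℕ) : ℚ) + v) * (((m + 1 : ℕ) : ℚ) + 1) ^ 4) =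
      X ((m + 1 : ℕ) : ℚ) u v * (B (m + 1) u * B (m + 1) v) := by
  have h1 := a_pred' m u hu
  have h2 := a_eq (m + 1) u hu
  have h3 := a_succ (m + 1) v
  unfold X
  push_cast at h1 h2 h3 ⊢
  set A1 := a m u
  set A2 := a (m + 1) u
  set A3 := a (m + 2) v
  set b1 := B (m + 1) u
  set b2 := B (m + 1) v
  have h12 : ((m : ℚ) + 1) * (m + 1 + u) * A1 * ((m : ℚ) + 1 + 1) ^ 2 =
      ((m : ℚ) + 1 - u) ^ 2 * (((m : ℚ) + 1 + 1 - u) ^ 2 * b1) := by
    linear_combination ((m : ℚ) + 1 + 1) ^ 2 * h1 + ((m : ℚ) + 1 - u) ^ 2 * h2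
  calc A1 * A3 * (((m : ℚ) + 1) * (m + 1 + u) * (m + 1 + v) * ((m : ℚ) + 1 + 1) ^ 4)
      = (((m : ℚ) + 1) * (m + 1 + u) * A1 * ((m : ℚ) + 1 + 1) ^ 2) *
        (((m : ℚ) + 1 + 1) * A3) * ((m + 1 + v) * ((m : ℚ) + 1 + 1)) := by ring
    _ = _ := by rw [h12, h3]; ring

theorem P2 (m u v : ℕ) (hu : u ≤ m + 2) (hv : v ≤ m + 2) :
    a (m + 1) u * a (m + 1) v * (((m + 1 : ℕ) : ℚ) + 1) ^ 4 =
      (((m + 1 : ℕ) : ℚ) + 1 - u) ^ 2 * (((m + 1 : ℕ) : ℚ) + 1 - v) ^ 2 *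
        (B (m + 1) u * B (m + 1) v) := by
  have h2 := a_eq (m + 1) u hu
  have h3 := a_eq (m + 1) v hv
  calc a (m + 1) u * a (m + 1) v * (((m + 1 : ℕ) : ℚ) + 1) ^ 4
      = ((((m + 1 : ℕ) : ℚ) + 1) ^ 2 * a (m + 1) u) * ((((m + 1 : ℕ) : ℚ) + 1) ^ 2 * a (m + 1) v) := by
        ring
    _ = _ := by rw [h2, h3]; ring

theorem T_key (m u v : ℕ) (hu : u ≤ m + 2) (hv : v ≤ m + 2) :
    T m u v * ((((m + 1 : ℕ) : ℚ) + u) * (((m + 1 : ℕ) : ℚ) + v) * (((m + 1 : ℕ) : ℚ) + 1) ^ 4) =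
      B (m + 1) u * B (m + 1) v * Q ((m + 1 : ℕ) : ℚ) u v := by
  have p1 := P1 m u v hu hv
  have p1' := P1 m v u hv hu
  have p2 := P2 m u v hu hv
  have g1 := G1_eq (m + 1) ((u : ℚ) + v) u v
  have g2 := G2_eq (m + 1) ((u : ℚ) + v) u v
  have e1 := a_eq (m + 1) u hu
  have e2 := a_eq (m + 1) v hv
  unfold T Q
  generalize rh ((m + 1 : ℕ) : ℚ) ((u : ℚ) + v) ((v : ℚ) - u + 1) = r1 at *
  generalize rh ((m + 1 : ℕ) : ℚ) ((u : ℚ) + v) ((v : ℚ) - u - 1) = r2 at *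
  generalize G1 (m + 1) ((u : ℚ) + v) u v = g1v at *
  generalize G2 (m + 1) ((u : ℚ) + v) u v = g2v at *
  generalize X ((m + 1 : ℕ) : ℚ) u v = x1 at *
  generalize X ((m + 1 : ℕ) : ℚ) v u = x2 at *
  generalize ((m + 1 : ℕ) : ℚ) = N at *
  generalize (u : ℚ) = U at *
  generalize (v : ℚ) = V at *
  generalize B (m + 1) u = bu at *
  generalize B (m + 1) v = bv at *
  generalize a m u = a1 at *
  generalize a m v = a1' at *
  generalize a (m + 1) u = a2 at *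
  generalize a (m + 1) v = a2' at *
  generalize a (m + 2) u = a3 at *
  generalize a (m + 2) v = a3' at *
  linear_combination (U + V) ^ 4 * p1 + (U + V) ^ 4 * p1' - 2 * N * (U + V) ^ 4 * (N + U) * (N + V) * p2
    + (N + V) * (N + 1) ^ 2 * g1 - (N + U) * (N + 1) ^ 2 * g2
    + (N + V) * (V - U + 1) * r1 * (U ^ 3 * bu) * e2
    - (N + U) * (V - U - 1) * r2 * (V ^ 3 * bv) * e1

theorem Q_nn (m u v : ℕ) (huv : u ≤ v) (hv : v ≤ m + 2) : 0 ≤ Q ((m + 1 : ℕ) : ℚ) u v := by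
  obtain ⟨w, rfl⟩ := Nat.exists_eq_add_of_le huv
  rcases Nat.lt_or_ge (m + 1) (u + w) with h | h
  · -- boundary u + w = m + 2
    have e : u + w = m + 2 := by omega
    match w, e with
    | 0, e =>
      have : (u : ℚ) = ((u + 0 : ℕ) : ℚ) := by simp
      rw [← this, Q_zero]
    | 1, e =>
      have hm : m + 1 = u := by omega
      have e2 : ((u + 1 : ℕ) : ℚ) = (u : ℚ) + 1 := by push_cast; ring
      rw [hm, e2]
      have : Q (u : ℚ) u ((u : ℚ) + 1) = 0 := by unfold Q X; ring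
      rw [this]
    | w + 2, e =>
      have hm : m + 1 = u + w + 1 := by omega
      rw [hm]
      have := Q_bd (u : ℚ) (w : ℚ) (by positivity) (by positivity)
      push_cast
      convert this using 2
      ring
  · obtain ⟨z, hz⟩ := Nat.exists_eq_add_of_le h
    rw [hz]
    match w with
    | 0 =>
      have : (u : ℚ) = ((u + 0 : ℕ) : ℚ) := by simp
      rw [← this, Q_zero]
    | 1 =>
      have := Q_one (u : ℚ) (z : ℚ) (by positivity) (by positivity)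
      push_cast
      convert this using 2
    | w + 2 =>
      have := Q_main (u : ℚ) (w : ℚ) (z : ℚ) (by positivity) (by positivity) (by positivity)
      push_cast
      convert this using 2 <;> ring

theorem T_nn_le (m u v : ℕ) (huv : u ≤ v) : 0 ≤ T m u v := by
  rcases Nat.lt_or_ge (m + 2) v with h | h
  · -- everything vanishes
    have h1 : a (m + 2) v = 0 := a_zero (by omega)
    have h2 : a (m + 1) v = 0 := a_zero (by omega)
    have h3 : a m v = 0 := a_zero (by omega)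
    obtain ⟨q, rfl⟩ : ∃ q, v = q + 1 := ⟨v - 1, by omega⟩
    have h4 : a (m + 1) q = 0 := a_zero (by omega)
    have hG1 : G1 (m + 1) ((u : ℚ) + (q + 1 : ℕ)) u (q + 1) = 0 := by
      cases u with
      | zero => rfl
      | succ p => simp only [G1]; unfold H; rw [h2]; ring
    have hG2 : G2 (m + 1) ((u : ℚ) + (q + 1 : ℕ)) u (q + 1) = 0 := by
      have : G2 (m + 1) ((u : ℚ) + (q + 1 : ℕ)) u (q + 1) = H (m + 1) ((u : ℚ) + (q + 1 : ℕ)) u q := by
        cases u <;> rfl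
      rw [this]; unfold H; rw [h4]; ring
    unfold T
    rw [h1, h2, h3, hG1, hG2]; simp
  · have hk := T_key m u v (by omega) h
    have hQ := Q_nn m u v huv h
    have hB1 := B_nn (m + 1) u
    have hB2 := B_nn (m + 1) v
    have hK : (0 : ℚ) < (((m + 1 : ℕ) : ℚ) + u) * (((m + 1 : ℕ) : ℚ) + v) *
        (((m + 1 : ℕ) : ℚ) + 1) ^ 4 := by positivity
    by_contra hneg
    rw [not_le] at hneg
    have : T m u v * ((((m + 1 : ℕ) : ℚ) + u) * (((m + 1 : ℕ) : ℚ) + v) *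
        (((m + 1 : ℕ) : ℚ) + 1) ^ 4) < 0 := mul_neg_of_neg_of_pos hneg hK
    rw [hk] at this
    have : 0 ≤ B (m + 1) u * B (m + 1) v * Q ((m + 1 : ℕ) : ℚ) u v := by positivity
    linarith

theorem T_nn (m u v : ℕ) : 0 ≤ T m u v := by
  rcases le_total u v with h | h
  · exact T_nn_le m u v h
  · rw [T_symm]; exact T_nn_le m v u h

theorem sum_G1 (N : ℕ) (j : ℕ) :
    ∑ x ∈ antidiagonal (j + 1), G1 N ((j + 1 : ℕ) : ℚ) x.1 x.2 =
      ∑ x ∈ antidiagonal j, H N ((j + 1 : ℕ) : ℚ) x.1 x.2 := by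
  rw [Finset.Nat.sum_antidiagonal_succ]
  simp [G1]

theorem sum_G2 (N : ℕ) (j : ℕ) :
    ∑ x ∈ antidiagonal (j + 1), G2 N ((j + 1 : ℕ) : ℚ) x.1 x.2 =
      ∑ x ∈ antidiagonal j, H N ((j + 1 : ℕ) : ℚ) x.1 x.2 := by
  rw [Finset.Nat.sum_antidiagonal_succ']
  have h0 : G2 N ((j + 1 : ℕ) : ℚ) (j + 1) 0 = 0 := by rfl
  have h1 : ∀ x : ℕ × ℕ, G2 N ((j + 1 : ℕ) : ℚ) x.1 (x.2 + 1) = H N ((j + 1 : ℕ) : ℚ) x.1 x.2 := by
    intro x
    cases x.1 <;> rfl
  simp only [h0, h1, zero_add]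

theorem main_sum (m j : ℕ) :
    0 ≤ ∑ x ∈ antidiagonal j, (a (m + 2) x.1 * a m x.2 - a (m + 1) x.1 * a (m + 1) x.2) := by
  cases j with
  | zero => simp [a]
  | succ j =>
    have hT : ∑ x ∈ antidiagonal (j + 1), T m x.1 x.2 =
        ((m + 1 : ℕ) : ℚ) * (((j + 1 : ℕ) : ℚ)) ^ 4 *
          (2 * ∑ x ∈ antidiagonal (j + 1),
            (a (m + 2) x.1 * a m x.2 - a (m + 1) x.1 * a (m + 1) x.2)) := by
      have hsym : ∑ x ∈ antidiagonal (j + 1), a m x.1 * a (m + 2) x.2 =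
          ∑ x ∈ antidiagonal (j + 1), a (m + 2) x.1 * a m x.2 := by
        rw [← Finset.Nat.sum_antidiagonal_swap]
        apply Finset.sum_congr rfl
        intro x _
        simp [mul_comm]
      have hcong : ∀ x ∈ antidiagonal (j + 1), T m x.1 x.2 =
          ((m + 1 : ℕ) : ℚ) * (((j + 1 : ℕ) : ℚ)) ^ 4 *
            (a m x.1 * a (m + 2) x.2 + a (m + 2) x.1 * a m x.2 -
              2 * (a (m + 1) x.1 * a (m + 1) x.2)) +
          (G1 (m + 1) ((j + 1 : ℕ) : ℚ) x.1 x.2 - G2 (m + 1) ((j + 1 : ℕ) : ℚ) x.1 x.2) := by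
        intro x hx
        have hx' : x.1 + x.2 = j + 1 := by simpa using hx
        have hq : (x.1 : ℚ) + x.2 = ((j + 1 : ℕ) : ℚ) := by exact_mod_cast hx'
        unfold T
        rw [hq]; ring
      rw [Finset.sum_congr rfl hcong, Finset.sum_add_distrib, Finset.sum_sub_distrib, sum_G1,
        sum_G2, sub_self, add_zero, ← Finset.mul_sum, Finset.sum_sub_distrib,
        Finset.sum_add_distrib, hsym, ← Finset.mul_sum, Finset.sum_sub_distrib]
      ring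
    have hT0 : 0 ≤ ∑ x ∈ antidiagonal (j + 1), T m x.1 x.2 :=
      Finset.sum_nonneg fun x _ => T_nn m x.1 x.2
    rw [hT] at hT0
    have hpos : (0 : ℚ) < ((m + 1 : ℕ) : ℚ) * (((j + 1 : ℕ) : ℚ)) ^ 4 := by positivity
    have := nonneg_of_mul_nonneg_right hT0 hpos
    linarith

end Pool.Agent.Helper39.Apery
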