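import Pool.Agent.Helper39.AperyProof

/-!
# The coefficients of `A_{n-1} A_{n+1} - A_n ^ 2` are positive from `q` to `q ^ (2 n)`
-/

set_option autoImplicit false

namespace Pool.Agent.Helper39.Apery

open Finset

theorem Q_one_pos (u z : ℚ) (hu : 0 ≤ u) (hz : 0 ≤ z) : 0 < Q (u + 1 + z) u (u + 1) := by
  have h : Q (u + 1 + z) u (u + 1) =
    32 + 120*z + 176*z^2 + 126*z^3 + 44*z^4 + 6*z^5 + 296*u + 1068*u*z + 1496*u*z^2 + 1014*u*z^3
     + 332*u*z^4 + 42*u*z^5 + 1080*u^2 + 3688*u^2*z + 4820*u^2*z^2 + 2992*u^2*z^3 + 876*u^2*z^4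
     + 96*u^2*z^5 + 1684*u^3 + 5178*u^3*z + 5872*u^3*z^2 + 2994*u^3*z^3 + 664*u^3*z^4 + 48*u^3*z^5
     + 1156*u^4 + 3144*u^4*z + 2980*u^4*z^2 + 1152*u^4*z^3 + 160*u^4*z^4 + 288*u^5 + 704*u^5*z
     + 544*u^5*z^2 + 128*u^5*z^3 := by
    unfold Q X rh; ring
  rw [h]; positivity

theorem Q_bd_pos (u : ℚ) (hu : 0 ≤ u) : 0 < Q (u + 1) u (u + 2) := by
  have h : Q (u + 1) u (u + 2) = 512 + 2048*u + 3200*u^2 + 2432*u^3 + 896*u^4 + 128*u^5 := by
    unfold Q X rh; ring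
  rw [h]; positivity

theorem Q_two_pos (u z : ℚ) (hu : 0 ≤ u) (hz : 0 ≤ z) : 0 < Q (u + 2 + z) u (u + 2) := by
  have h : Q (u + 2 + z) u (u + 2) = cm0 u z := by
    unfold Q X rh cm0; ring
  rw [h]; unfold cm0; positivity

theorem B_pos (N v : ℕ) (h : v ≤ N + 1) : 0 < B N v := by
  unfold B
  have h1 : 0 < (N + 1).choose v := Nat.choose_pos h
  have h2 : 0 < (N + v).choose v := Nat.choose_pos (Nat.le_add_left v N)
  positivity

/-- some summand is positive -/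
theorem exists_T_pos (m j : ℕ) (h1 : 1 ≤ j) (h2 : j ≤ 2 * (m + 1)) :
    ∃ x ∈ antidiagonal j, 0 < T m x.1 x.2 := by
  have key : ∀ u v : ℕ, v ≤ m + 2 → u ≤ m + 2 → 0 < Q ((m + 1 : ℕ) : ℚ) u v → 0 < T m u v := by
    intro u v hv hu hQ
    have hk := T_key m u v hu hv
    have hB1 := B_pos (m + 1) u hu
    have hB2 := B_pos (m + 1) v hv
    have hK : (0 : ℚ) < (((m + 1 : ℕ) : ℚ) + u) * (((m + 1 : ℕ) : ℚ) + v) *
        (((m + 1 : ℕ) : ℚ) + 1) ^ 4 := by positivity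
    have hR : 0 < B (m + 1) u * B (m + 1) v * Q ((m + 1 : ℕ) : ℚ) u v := by positivity
    rw [← hk] at hR
    exact pos_of_mul_pos_left hR hK.le
  rcases Nat.even_or_odd' j with ⟨c, hc | hc⟩
  · obtain ⟨u, rfl⟩ : ∃ u, c = u + 1 := ⟨c - 1, by omega⟩
    refine ⟨(u, u + 2), by simp only [HasAntidiagonal.mem_antidiagonal]; omega, ?_⟩
    apply key u (u + 2) (by omega) (by omega)
    rcases Nat.lt_or_ge u m with h | h
    · obtain ⟨z, hz⟩ := Nat.exists_eq_add_of_le (show u + 1 ≤ m from h)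
      have := Q_two_pos (u : ℚ) (z : ℚ) (by positivity) (by positivity)
      have e : ((m + 1 : ℕ) : ℚ) = (u : ℚ) + 2 + z := by rw [hz]; push_cast; ring
      have e2 : ((u + 2 : ℕ) : ℚ) = (u : ℚ) + 2 := by push_cast; ring
      rw [e, e2]
      exact this
    · have hm : u = m := by omega
      have := Q_bd_pos (u : ℚ) (by positivity)
      have e : ((m + 1 : ℕ) : ℚ) = (u : ℚ) + 1 := by rw [hm]; push_cast; ring
      have e2 : ((u + 2 : ℕ) : ℚ) = (u : ℚ) + 2 := by push_cast; ring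
      rw [e, e2]
      exact this
  · refine ⟨(c, c + 1), by simp only [HasAntidiagonal.mem_antidiagonal]; omega, ?_⟩
    apply key c (c + 1) (by omega) (by omega)
    obtain ⟨z, hz⟩ := Nat.exists_eq_add_of_le (show c ≤ m by omega)
    have := Q_one_pos (c : ℚ) (z : ℚ) (by positivity) (by positivity)
    have e : ((m + 1 : ℕ) : ℚ) = (c : ℚ) + 1 + z := by rw [hz]; push_cast; ring
    have e2 : ((c + 1 : ℕ) : ℚ) = (c : ℚ) + 1 := by push_cast; ring
    rw [e, e2]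
    exact this

/-- the sum of the corrected terms -/
theorem sum_T (m j : ℕ) : ∑ x ∈ antidiagonal (j + 1), T m x.1 x.2 =
    ((m + 1 : ℕ) : ℚ) * (((j + 1 : ℕ) : ℚ)) ^ 4 *
      (2 * ∑ x ∈ antidiagonal (j + 1),
        (a (m + 2) x.1 * a m x.2 - a (m + 1) x.1 * a (m + 1) x.2)) := by
  have hsym : ∑ x ∈ antidiagonal (j + 1), a m x.1 * a (m + 2) x.2 =
      ∑ x ∈ antidiagonal (j + 1), a (m + 2) x.1 * a m x.2 := by
    rw [← Finset.Nat.sum_antidiagonal_swap]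
    apply Finset.sum_congr rfl
    intro x _
    simp [mul_comm]
  have hcong : ∀ x ∈ antidiagonal (j + 1), T m x.1 x.2 =
      ((m + 1 : ℕ) : ℚ) * (((j + 1 : ℕ) : ℚ)) ^ 4 *
        (a m x.1 * a (m + 2) x.2 + a (m + 2) x.1 * a m x.2 -
          2 * (a (m + 1) x.1 * a (m + 1) x.2)) +
      (G1 (m + 1) ((j + 1 : ℕ) : ℚ) x.1 x.2 - G2 (m + 1) ((j + 1 : ℕ) : ℚ) x.1 x.2) := by
    intro x hx
    have hx' : x.1 + x.2 = j + 1 := by simpa using hx
    have hq : (x.1 : ℚ) + x.2 = ((j + 1 : ℕ) : ℚ) := by exact_mod_cast hx'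
    unfold T
    rw [hq]; ring
  rw [Finset.sum_congr rfl hcong, Finset.sum_add_distrib, Finset.sum_sub_distrib, sum_G1,
    sum_G2, sub_self, add_zero, ← Finset.mul_sum, Finset.sum_sub_distrib,
    Finset.sum_add_distrib, hsym, ← Finset.mul_sum, Finset.sum_sub_distrib]
  ring

/-- The coefficient of `q ^ j` in `A_{m+2} A_m - A_{m+1} ^ 2` is positive for `1 ≤ j ≤ 2 (m+1)`. -/
theorem main_pos (m j : ℕ) (h1 : 1 ≤ j) (h2 : j ≤ 2 * (m + 1)) :
    0 < ∑ x ∈ antidiagonal j, (a (m + 2) x.1 * a m x.2 - a (m + 1) x.1 * a (m + 1) x.2) := by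
  obtain ⟨j, rfl⟩ : ∃ i, j = i + 1 := ⟨j - 1, by omega⟩
  have hT0 : 0 < ∑ x ∈ antidiagonal (j + 1), T m x.1 x.2 :=
    Finset.sum_pos' (fun x _ => T_nn m x.1 x.2) (exists_T_pos m (j + 1) h1 h2)
  rw [sum_T] at hT0
  have hpos : (0 : ℚ) < ((m + 1 : ℕ) : ℚ) * (((j + 1 : ℕ) : ℚ)) ^ 4 := by positivity
  have := pos_of_mul_pos_right hT0 hpos.le
  linarith

/-- The other coefficients vanish. -/
theorem main_zero (m j : ℕ) (h : j = 0 ∨ 2 * (m + 1) < j) :
    ∑ x ∈ antidiagonal j, (a (m + 2) x.1 * a m x.2 - a (m + 1) x.1 * a (m + 1) x.2) = 0 := by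
  rcases h with rfl | h
  · simp [a]
  · apply Finset.sum_eq_zero
    intro x hx
    have hx' : x.1 + x.2 = j := by simpa using hx
    have e1 : a (m + 2) x.1 * a m x.2 = 0 := by
      rcases Nat.lt_or_ge (m + 2) x.1 with h1 | h1
      · rw [a_zero h1, zero_mul]
      · rw [a_zero (show m < x.2 by omega), mul_zero]
    have e2 : a (m + 1) x.1 * a (m + 1) x.2 = 0 := by
      rcases Nat.lt_or_ge (m + 1) x.1 with h1 | h1
      · rw [a_zero h1, zero_mul]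
      · rw [a_zero (show m + 1 < x.2 by omega), mul_zero]
    rw [e1, e2, sub_zero]

end Pool.Agent.Helper39.Apery
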