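import Mathlib

/-!
# The bucket game on a graph: definitions
-/

namespace Pool.Agent.Helper39.Bucket

/-- A legal move of the Stepmother: nonnegative amounts of water with total `1`. -/
def IsPour {V : Type} [Fintype V] (a : V → ℝ) : Prop := (∀ v, 0 ≤ a v) ∧ ∑ v, a v = 1

open Classical in
/-- `content a I t v` is the content of bucket `v` right after the Stepmother's move in round `t`
(rounds are numbered `0, 1, 2, …`, all buckets start empty), when the Stepmother's moves are
`a 0, a 1, …` and the sets emptied by Cinderella are `I 0, I 1, …`. -/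
noncomputable def content {V : Type} (a : ℕ → V → ℝ) (I : ℕ → Finset V) : ℕ → V → ℝ
  | 0 => fun v => a 0 v
  | t + 1 => fun v => (if v ∈ I t then 0 else content a I t v) + a (t + 1) v

/-- The list of the Stepmother's moves in rounds `0, …, t`. -/
def history {V : Type} (a : ℕ → V → ℝ) (t : ℕ) : List (V → ℝ) := (List.range (t + 1)).map a

/-- The infimum of the capacities `b > 0` for which Cinderella has a strategy (a function of the
Stepmother's moves so far, returning independent sets) that keeps all contents at most `b`. -/
noncomputable def bucketCap {V : Type} [Fintype V] (G : SimpleGraph V) : ℝ :=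
  sInf {b : ℝ | 0 < b ∧ ∃ σ : List (V → ℝ) → Finset V,
    (∀ h, G.IsIndepSet (σ h : Set V)) ∧
    ∀ a : ℕ → V → ℝ, (∀ t, IsPour (a t)) →
      ∀ t v, content a (fun s => σ (history a s)) t v ≤ b}

/-- The bucket number. -/
noncomputable def bucket {V : Type} [Fintype V] (G : SimpleGraph V) : ℝ := bucketCap G - 1

/-- `I` is a possible choice of GREEDY at contents `x`: an independent set of maximal total
content. -/
def IsGreedyChoice {V : Type} (G : SimpleGraph V) (x : V → ℝ) (I : Finset V) : Prop :=
  G.IsIndepSet (I : Set V) ∧
    ∀ J : Finset V, G.IsIndepSet (J : Set V) → ∑ v ∈ J, x v ≤ ∑ v ∈ I, x v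

/-- The infimum of the capacities `b > 0` such that no overflow ever happens when Cinderella plays
GREEDY, whatever the Stepmother does and however ties are broken. -/
noncomputable def gBucketCap {V : Type} [Fintype V] (G : SimpleGraph V) : ℝ :=
  sInf {b : ℝ | 0 < b ∧ ∀ (a : ℕ → V → ℝ) (I : ℕ → Finset V), (∀ t, IsPour (a t)) →
    (∀ t, IsGreedyChoice G (content a I t) (I t)) → ∀ t v, content a I t v ≤ b}

/-- The greedy bucket number. -/
noncomputable def gBucket {V : Type} [Fintype V] (G : SimpleGraph V) : ℝ := gBucketCap G - 1

end Pool.Agent.Helper39.Bucket
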