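import Mathlib
import Pool.Agent.Helper39.BucketDefs

/-!
# The gap between the greedy and the optimal bucket number is unbounded

For every real `C` we construct a finite simple graph `G` with bucket number at most `6` and with
greedy bucket number larger than the bucket number by more than `C`.

The graph: a vertex `none` joined to everything, and the product of the complete graph on `Fin T`
with the graph on the cube `Fin n → Bool` in which two points are adjacent when they differ in at
least `n - m` coordinates.

* By an isoperimetric inequality on the cube (`cube_iso`) and an averaging argument every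
  independent set of the product has at most `2 ^ n` points, the size of one part
  `{i} × cube`. So GREEDY, when the alive parts are filled evenly, may always empty one part; the
  parts then reach weight `1/T + ... + 1/(r+1) ≥ r`, and during the next `r` rounds GREEDY keeps
  emptying parts although all the water is poured into `none`.
* If `9 T² m < n`, every set of at most `3T` vertices of the product induces a bipartite graph
  (some coordinate separates the ends of all its edges). Cinderella plays in turn: empty `none`;
  empty the heaviest part; empty the better half of the set of all buckets with content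
  larger than `1`. This keeps all contents at most `7`.
-/

open Finset

namespace Pool.Agent.Helper39.Bucket

/-- functional isoperimetry on the cube -/
theorem cube_iso (lam : ℝ) (hl : 1 ≤ lam) : ∀ (n : ℕ) (f g : (Fin n → Bool) → ℝ),
    (∀ x, 0 ≤ f x) → (∀ x, 0 ≤ g x) →
    (∀ x y, f x * g y ≤ lam ^ (hammingDist x y)) →
    (∑ x, f x) * (∑ y, g y) ≤ (2 + lam + lam⁻¹) ^ n := by
  have hl0 : (0:ℝ) < lam := by linarith
  intro n
  induction n with
  | zero =>
    intro f g hf hg h
    rw [Fintype.sum_unique, Fintype.sum_unique, pow_zero]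
    have h1 := h (@default (Fin 0 → Bool) Unique.instInhabited)
      (@default (Fin 0 → Bool) Unique.instInhabited)
    rw [hammingDist_self, pow_zero] at h1
    exact h1
  | succ n ih =>
    intro f g hf hg h
    have key : ∀ (i : Bool) (x : Fin n → Bool) (j : Bool) (y : Fin n → Bool),
        hammingDist (Fin.cons i x : Fin (n+1) → Bool) (Fin.cons j y)
          = (if i = j then 0 else 1) + hammingDist x y := by
      intro i x j y
      unfold hammingDist
      rw [Fin.univ_succ, Finset.filter_cons]
      split_ifs with h1 h2 h2
      · simp at h1; exact absurd h2 h1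
      · rw [Finset.card_cons]
        simp [Finset.filter_map, add_comm]
      · simp [Finset.filter_map]
      · simp at h1; exact absurd h1 h2
    have hsum : ∀ F : (Fin (n+1) → Bool) → ℝ, ∑ x, F x
        = (∑ x : Fin n → Bool, F (Fin.cons false x)) + ∑ x : Fin n → Bool, F (Fin.cons true x) := by
      intro F
      rw [← (Fin.consEquiv (fun _ => Bool)).sum_comp, Fintype.sum_prod_type]
      simp [Fin.consEquiv, add_comm]
    rw [hsum f, hsum g]
    set P : ℝ := (2 + lam + lam⁻¹) ^ n with hP
    have hPpos : 0 < P := by positivity
    set F0 := ∑ x : Fin n → Bool, f (Fin.cons false x) with hF0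
    set F1 := ∑ x : Fin n → Bool, f (Fin.cons true x) with hF1
    set G0 := ∑ x : Fin n → Bool, g (Fin.cons false x) with hG0
    set G1 := ∑ x : Fin n → Bool, g (Fin.cons true x) with hG1
    have e00 : F0 * G0 ≤ P := ih (fun x => f (Fin.cons false x)) (fun x => g (Fin.cons false x))
      (fun x => hf _) (fun x => hg _) (fun x y => by
        have := h (Fin.cons false x) (Fin.cons false y)
        rw [key] at this; simpa using this)
    have e11 : F1 * G1 ≤ P := ih (fun x => f (Fin.cons true x)) (fun x => g (Fin.cons true x))
      (fun x => hf _) (fun x => hg _) (fun x y => by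
        have := h (Fin.cons true x) (Fin.cons true y)
        rw [key] at this; simpa using this)
    have e01 : F0 * G1 ≤ lam * P := by
      have := ih (fun x => lam⁻¹ * f (Fin.cons false x)) (fun x => g (Fin.cons true x))
        (fun x => by have := hf (Fin.cons false x); positivity) (fun x => hg _) (fun x y => by
        have := h (Fin.cons false x) (Fin.cons true y)
        rw [key] at this
        simp only [Bool.false_eq_true, if_false, pow_add, pow_one] at this
        calc lam⁻¹ * f (Fin.cons false x) * g (Fin.cons true y)
            = lam⁻¹ * (f (Fin.cons false x) * g (Fin.cons true y)) := by ring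
          _ ≤ lam⁻¹ * (lam * lam ^ hammingDist x y) := by gcongr
          _ = lam ^ hammingDist x y := by field_simp)
      rw [← Finset.mul_sum] at this
      have h2 : lam * (lam⁻¹ * F0 * G1) ≤ lam * P := by gcongr
      have h3 : lam * (lam⁻¹ * F0 * G1) = F0 * G1 := by field_simp
      linarith
    have e10 : F1 * G0 ≤ lam * P := by
      have := ih (fun x => lam⁻¹ * f (Fin.cons true x)) (fun x => g (Fin.cons false x))
        (fun x => by have := hf (Fin.cons true x); positivity) (fun x => hg _) (fun x y => by
        have := h (Fin.cons true x) (Fin.cons false y)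
        rw [key] at this
        simp only [Bool.true_eq_false, if_false, pow_add, pow_one] at this
        calc lam⁻¹ * f (Fin.cons true x) * g (Fin.cons false y)
            = lam⁻¹ * (f (Fin.cons true x) * g (Fin.cons false y)) := by ring
          _ ≤ lam⁻¹ * (lam * lam ^ hammingDist x y) := by gcongr
          _ = lam ^ hammingDist x y := by field_simp)
      rw [← Finset.mul_sum] at this
      have h2 : lam * (lam⁻¹ * F1 * G0) ≤ lam * P := by gcongr
      have h3 : lam * (lam⁻¹ * F1 * G0) = F1 * G0 := by field_simp
      linarith
    have nF0 : 0 ≤ F0 := Finset.sum_nonneg (fun x _ => hf _)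
    have nF1 : 0 ≤ F1 := Finset.sum_nonneg (fun x _ => hf _)
    have nG0 : 0 ≤ G0 := Finset.sum_nonneg (fun x _ => hg _)
    have nG1 : 0 ≤ G1 := Finset.sum_nonneg (fun x _ => hg _)
    -- p = F0*G1, q = F1*G0, p q ≤ P^2
    have hpq : (F0 * G1) * (F1 * G0) ≤ P * P := by
      calc (F0 * G1) * (F1 * G0) = (F0 * G0) * (F1 * G1) := by ring
        _ ≤ P * P := by
          apply mul_le_mul e00 e11 (by positivity) hPpos.le
    have hprod : 0 ≤ (lam * P - F0 * G1) * (lam * P - F1 * G0) :=
      mul_nonneg (by linarith) (by linarith)
    have hsumpq : F0 * G1 + F1 * G0 ≤ (lam + lam⁻¹) * P := by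
      have h1 : lam * P * (F0 * G1 + F1 * G0) ≤ lam * P * ((lam + lam⁻¹) * P) := by
        have : lam * P * ((lam + lam⁻¹) * P) = lam * P * (lam * P) + P * P := by
          field_simp
        rw [this]
        nlinarith
      exact le_of_mul_le_mul_left h1 (by positivity)
    calc (F0 + F1) * (G0 + G1) = F0 * G0 + F1 * G1 + (F0 * G1 + F1 * G0) := by ring
      _ ≤ P + P + (lam + lam⁻¹) * P := by linarith
      _ = (2 + lam + lam⁻¹) ^ (n + 1) := by rw [pow_succ, ← hP]; ring


/-- the coordinatewise negation of a point of the cube -/
def flip {n : ℕ} (x : Fin n → Bool) : Fin n → Bool := fun i => !(x i)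

theorem flip_flip {n : ℕ} (x : Fin n → Bool) : flip (flip x) = x := by
  funext i; simp [flip]

theorem hammingDist_flip {n : ℕ} (x y : Fin n → Bool) :
    hammingDist x (flip y) + hammingDist x y = n := by
  unfold hammingDist flip
  have h := Finset.card_filter_add_card_filter_not (s := (Finset.univ : Finset (Fin n)))
    (fun i => x i ≠ y i)
  simp only [Finset.card_univ, Fintype.card_fin] at h
  have h2 : (Finset.univ.filter fun i => x i ≠ !(y i)) = (Finset.univ.filter fun i => ¬ (x i ≠ y i)) := by
    ext i
    simp only [Finset.mem_filter, Finset.mem_univ, true_and]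
    cases x i <;> cases y i <;> simp
  rw [h2]
  omega

theorem indep_card_sq {n m : ℕ} (lam : ℝ) (hl : 1 ≤ lam) (A : Finset (Fin n → Bool))
    (hA : ∀ x ∈ A, ∀ y ∈ A, hammingDist x y + m < n) :
    (A.card : ℝ) ^ 2 * lam ^ m ≤ (2 + lam + lam⁻¹) ^ n := by
  classical
  have hl0 : (0:ℝ) < lam := by linarith
  have h := cube_iso lam hl n (fun x => if x ∈ A then 1 else 0)
    (fun y => if flip y ∈ A then lam ^ m else 0)
    (fun x => by split_ifs <;> norm_num) (fun y => by split_ifs <;> positivity) (by
      intro x y
      by_cases hx : x ∈ A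
      · by_cases hy : flip y ∈ A
        · simp only [hx, hy, if_true, one_mul]
          apply pow_le_pow_right₀ hl
          have h1 := hA x hx _ hy
          have h2 := hammingDist_flip x (flip y)
          rw [flip_flip] at h2
          omega
        · simp only [hy, if_false, mul_zero]; positivity
      · simp only [hx, if_false, zero_mul]; positivity)
  have h1 : ∑ x : Fin n → Bool, (if x ∈ A then (1:ℝ) else 0) = A.card := by
    simp
  have h2 : ∑ y : Fin n → Bool, (if flip y ∈ A then lam ^ m else 0) = A.card * lam ^ m := by
    have : Function.Bijective (flip : (Fin n → Bool) → (Fin n → Bool)) :=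
      Function.bijective_iff_has_inverse.mpr ⟨flip, flip_flip, flip_flip⟩
    rw [this.sum_comp (fun y => if y ∈ A then lam ^ m else 0)]
    simp
  rw [h1, h2] at h
  calc (A.card : ℝ) ^ 2 * lam ^ m = A.card * (A.card * lam ^ m) := by ring
    _ ≤ _ := h

/-- choice of parameters: the far-graph on the cube has tiny independence ratio while the
dimension is much larger than the slack `m`. -/
theorem exists_params (T k : ℕ) (hk : 1 ≤ k) : ∃ n m : ℕ, 1 ≤ m ∧ n = m * k ∧
    ∀ A : Finset (Fin n → Bool), (∀ x ∈ A, ∀ y ∈ A, hammingDist x y + m < n) →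
      T * A.card ≤ 2 ^ n := by
  have hk0 : (0:ℝ) < k := by exact_mod_cast hk
  set s : ℝ := 1 / k with hs
  have hs0 : 0 < s := by positivity
  have hs1 : s ≤ 1 := by
    rw [hs, div_le_one hk0]; exact_mod_cast hk
  set lam : ℝ := 1 + s with hlam
  have hlam1 : 1 ≤ lam := by linarith
  have hlam0 : 0 < lam := by linarith
  set c : ℝ := (2 + lam + lam⁻¹) / 4 with hc
  have hc1 : c ≤ 1 + s ^ 2 / 4 := by
    rw [hc]
    have : lam⁻¹ ≤ 1 - s + s ^ 2 := by
      rw [inv_le_iff_one_le_mul₀ hlam0, hlam]
      nlinarith [pow_pos hs0 3]
    rw [div_le_iff₀ (by norm_num)]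
    nlinarith
  have hc0 : 0 < c := by positivity
  have hck : c ^ k ≤ Real.exp (s / 4) := by
    calc c ^ k ≤ (Real.exp (s ^ 2 / 4)) ^ k := by
          apply pow_le_pow_left₀ hc0.le
          have := Real.add_one_le_exp (s ^ 2 / 4)
          linarith
      _ = Real.exp (s / 4) := by
          rw [← Real.exp_nat_mul]
          congr 1
          rw [hs]; field_simp
  have hexp : Real.exp (s / 4) < lam := by
    have h1 : Real.exp (-(s/4)) ≥ 1 - s / 4 := by
      have := Real.add_one_le_exp (-(s/4)); linarith
    have h2 : Real.exp (s/4) * Real.exp (-(s/4)) = 1 := by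
      rw [← Real.exp_add]; simp
    have h3 : 0 < Real.exp (s/4) := Real.exp_pos _
    have h4 : Real.exp (s/4) * (1 - s/4) ≤ 1 := by
      calc Real.exp (s/4) * (1 - s/4) ≤ Real.exp (s/4) * Real.exp (-(s/4)) := by gcongr
        _ = 1 := h2
    by_contra hcon
    push Not at hcon
    have h5 : lam * (1 - s/4) ≤ 1 := le_trans (by
      apply mul_le_mul_of_nonneg_right hcon; linarith) h4
    rw [hlam] at h5
    nlinarith
  set q : ℝ := c ^ k / lam with hq
  have hq0 : 0 ≤ q := by positivity
  have hq1 : q < 1 := by
    rw [hq, div_lt_one hlam0]; linarith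
  obtain ⟨m0, hm0⟩ := exists_pow_lt_of_lt_one (show (0:ℝ) < 1 / (T ^ 2 + 1) by positivity) hq1
  refine ⟨(m0 + 1) * k, m0 + 1, by omega, rfl, ?_⟩
  intro A hA
  have h1 := indep_card_sq lam hlam1 A hA
  have hqm : q ^ (m0 + 1) ≤ 1 / (T ^ 2 + 1) := by
    calc q ^ (m0 + 1) ≤ q ^ m0 := pow_le_pow_of_le_one hq0 hq1.le (by omega)
      _ ≤ _ := hm0.le
  have h2 : (2 + lam + lam⁻¹) ^ ((m0 + 1) * k) = (4:ℝ) ^ ((m0 + 1) * k) * (q ^ (m0 + 1) * lam ^ (m0 + 1)) := by
    rw [← mul_pow, hq, div_mul_cancel₀ _ hlam0.ne', ← pow_mul, mul_comm k, ← mul_pow, hc]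
    congr 1; ring
  rw [h2] at h1
  have h3 : (A.card : ℝ) ^ 2 ≤ (4:ℝ) ^ ((m0 + 1) * k) * q ^ (m0 + 1) := by
    have : 0 < lam ^ (m0 + 1) := by positivity
    have h4 : (A.card : ℝ) ^ 2 * lam ^ (m0 + 1) ≤ ((4:ℝ) ^ ((m0 + 1) * k) * q ^ (m0 + 1)) * lam ^ (m0 + 1) := by
      linarith
    exact le_of_mul_le_mul_right h4 this
  have h5 : ((T:ℝ) * A.card) ^ 2 ≤ ((2:ℝ) ^ ((m0 + 1) * k)) ^ 2 := by
    calc ((T:ℝ) * A.card) ^ 2 = T ^ 2 * (A.card : ℝ) ^ 2 := by ring
      _ ≤ T ^ 2 * ((4:ℝ) ^ ((m0 + 1) * k) * q ^ (m0 + 1)) := by gcongr
      _ ≤ T ^ 2 * ((4:ℝ) ^ ((m0 + 1) * k) * (1 / (T ^ 2 + 1))) := by gcongr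
      _ = (4:ℝ) ^ ((m0 + 1) * k) * (T ^ 2 / (T ^ 2 + 1)) := by ring
      _ ≤ (4:ℝ) ^ ((m0 + 1) * k) * 1 := by
          gcongr
          rw [div_le_one (by positivity)]; linarith
      _ = ((2:ℝ) ^ ((m0 + 1) * k)) ^ 2 := by
          rw [mul_one, show (4:ℝ) = 2 ^ 2 by norm_num, ← pow_mul, ← pow_mul, mul_comm 2]
  have h6 : (T:ℝ) * A.card ≤ (2:ℝ) ^ ((m0 + 1) * k) :=
    le_of_sq_le_sq h5 (by positivity)
  exact_mod_cast h6


/-- translation of the cube -/
def shift {n : ℕ} (g x : Fin n → Bool) : Fin n → Bool := fun i => xor (x i) (g i)

theorem hammingDist_shift {n : ℕ} (g x y : Fin n → Bool) :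
    hammingDist (shift g x) (shift g y) = hammingDist x y := by
  unfold shift
  exact hammingDist_comp (fun i b => xor b (g i)) (fun i => by
    intro a b hab
    simpa using hab)

/-- expansion of independent sets in the far-graph -/
theorem expansion {n m T : ℕ}
    (hT : ∀ A : Finset (Fin n → Bool), (∀ x ∈ A, ∀ y ∈ A, hammingDist x y + m < n) →
      T * A.card ≤ 2 ^ n)
    (A N : Finset (Fin n → Bool)) (hA : ∀ x ∈ A, ∀ y ∈ A, hammingDist x y + m < n)
    (hAN : A ⊆ N) (hN : ∀ x ∈ A, ∀ y, n ≤ hammingDist x y + m → y ∈ N) :
    T * A.card ≤ N.card := by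
  classical
  -- maximum independent set
  obtain ⟨I, hI, hImax⟩ := Finset.exists_max_image
    (Finset.univ.filter fun A : Finset (Fin n → Bool) =>
      ∀ x ∈ A, ∀ y ∈ A, hammingDist x y + m < n) (fun A => A.card) ⟨∅, by simp⟩
  simp only [Finset.mem_filter, Finset.mem_univ, true_and] at hI hImax
  -- translates
  have htr : ∀ g : Fin n → Bool, A.card ≤ (I.filter fun x => shift g x ∈ N).card := by
    intro g
    set J := ((I.filter fun x => shift g x ∉ N).image (shift g)) ∪ A with hJ
    have hinj : Function.Injective (shift g : (Fin n → Bool) → (Fin n → Bool)) := by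
      intro a b hab
      funext i
      have := congrFun hab i
      simpa [shift] using this
    have hJi : ∀ x ∈ J, ∀ y ∈ J, hammingDist x y + m < n := by
      intro x hx y hy
      rw [hJ, Finset.mem_union] at hx hy
      rcases hx with hx | hx <;> rcases hy with hy | hy
      · obtain ⟨x', hx', rfl⟩ := Finset.mem_image.mp hx
        obtain ⟨y', hy', rfl⟩ := Finset.mem_image.mp hy
        rw [hammingDist_shift]
        exact hI _ (Finset.mem_filter.mp hx').1 _ (Finset.mem_filter.mp hy').1
      · obtain ⟨x', hx', rfl⟩ := Finset.mem_image.mp hx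
        by_contra hcon
        push Not at hcon
        rw [hammingDist_comm] at hcon
        exact (Finset.mem_filter.mp hx').2 (hN y hy _ hcon)
      · obtain ⟨y', hy', rfl⟩ := Finset.mem_image.mp hy
        by_contra hcon
        push Not at hcon
        exact (Finset.mem_filter.mp hy').2 (hN x hx _ hcon)
      · exact hA x hx y hy
    have h1 := hImax J hJi
    have hdisj : Disjoint ((I.filter fun x => shift g x ∉ N).image (shift g)) A := by
      rw [Finset.disjoint_left]
      intro x hx hxA
      obtain ⟨x', hx', rfl⟩ := Finset.mem_image.mp hx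
      exact (Finset.mem_filter.mp hx').2 (hAN hxA)
    rw [hJ, Finset.card_union_of_disjoint hdisj, Finset.card_image_of_injective _ hinj] at h1
    have h2 := Finset.card_filter_add_card_filter_not (s := I) (fun x => shift g x ∈ N)
    omega
  -- double counting
  have hcount : ∑ g : Fin n → Bool, (I.filter fun x => shift g x ∈ N).card = I.card * N.card := by
    simp only [Finset.card_filter]
    rw [Finset.sum_comm]
    have : ∀ x ∈ I, ∑ g : Fin n → Bool, (if shift g x ∈ N then 1 else 0) = N.card := by
      intro x _
      have hb : Function.Bijective (fun g : Fin n → Bool => shift g x) := by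
        refine Function.bijective_iff_has_inverse.mpr ⟨fun y => shift y x, ?_, ?_⟩
        · intro g; funext i; simp [shift]
        · intro y; funext i; simp [shift]
      rw [hb.sum_comp (fun y => if y ∈ N then 1 else 0)]
      simp
    rw [Finset.sum_congr rfl this]
    simp
  have hle : 2 ^ n * A.card ≤ I.card * N.card := by
    rw [← hcount]
    calc 2 ^ n * A.card = ∑ _g : Fin n → Bool, A.card := by simp
      _ ≤ _ := Finset.sum_le_sum (fun g _ => htr g)
  have hIT := hT I hI
  rcases Nat.eq_zero_or_pos I.card with h0 | hpos
  · -- then A is empty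
    have : A.card ≤ I.card := hImax A hA
    have : A.card = 0 := by omega
    rw [this]; simp
  · have h3 : I.card * (T * A.card) ≤ I.card * N.card := by
      calc I.card * (T * A.card) = (T * I.card) * A.card := by ring
        _ ≤ 2 ^ n * A.card := Nat.mul_le_mul_right _ hIT
        _ ≤ _ := hle
    exact Nat.le_of_mul_le_mul_left h3 hpos

/-- independent sets in the product of a complete graph with the far-graph -/
theorem indep_prod {n m T : ℕ}
    (hT : ∀ A : Finset (Fin n → Bool), (∀ x ∈ A, ∀ y ∈ A, hammingDist x y + m < n) →
      T * A.card ≤ 2 ^ n)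
    (J : Finset (Fin T × (Fin n → Bool)))
    (hJ : ∀ p ∈ J, ∀ q ∈ J, p.1 ≠ q.1 → hammingDist p.2 q.2 + m < n) :
    J.card ≤ 2 ^ n := by
  classical
  -- fibres
  set S : (Fin n → Bool) → Finset (Fin T) := fun x => Finset.univ.filter fun i => (i, x) ∈ J with hS
  have hcard : J.card = ∑ x : Fin n → Bool, (S x).card := by
    have h1 : J.card = ∑ x : Fin n → Bool, (J.filter fun p => p.2 = x).card :=
      Finset.card_eq_sum_card_fiberwise (fun p _ => Finset.mem_coe.mpr (Finset.mem_univ _))
    rw [h1]
    apply Finset.sum_congr rfl
    intro x _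
    apply Finset.card_bij (fun p _ => p.1)
    · intro p hp
      rw [Finset.mem_filter] at hp
      obtain ⟨hp1, hp2⟩ := hp
      simp only [hS, Finset.mem_filter, Finset.mem_univ, true_and]
      rw [← hp2]; exact hp1
    · intro p hp q hq hpq
      rw [Finset.mem_filter] at hp hq
      exact Prod.ext hpq (by rw [hp.2, hq.2])
    · intro i hi
      simp only [hS, Finset.mem_filter, Finset.mem_univ, true_and] at hi
      exact ⟨(i, x), by simp [hi], rfl⟩
  set A := Finset.univ.filter fun x : Fin n → Bool => 2 ≤ (S x).card with hAdef
  have hAmem : ∀ x, x ∈ A ↔ 2 ≤ (S x).card := by intro x; simp [hAdef]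
  -- if x in A and y is far from x then S y is empty
  have hfar : ∀ x ∈ A, ∀ y, n ≤ hammingDist x y + m → S y = ∅ := by
    intro x hx y hxy
    by_contra hne
    obtain ⟨j, hj⟩ := Finset.nonempty_iff_ne_empty.mpr hne
    have h2 := (hAmem x).mp hx
    obtain ⟨i, hi, hij⟩ := Finset.exists_mem_ne (by omega : 1 < (S x).card) j
    simp only [hS, Finset.mem_filter, Finset.mem_univ, true_and] at hi hj
    have := hJ _ hi _ hj hij
    simp only at this
    omega
  set N := Finset.univ.filter fun y : Fin n → Bool => y ∈ A ∨ ∃ x ∈ A, n ≤ hammingDist x y + m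
    with hNdef
  have hAindep : ∀ x ∈ A, ∀ y ∈ A, hammingDist x y + m < n := by
    intro x hx y hy
    by_contra hcon
    push Not at hcon
    have h1 := hfar x hx y hcon
    have h2 := (hAmem y).mp hy
    rw [h1] at h2; simp at h2
  have hexp := expansion hT A N hAindep (fun x hx => by simp [hNdef, hx])
    (fun x hx y hxy => by
      simp only [hNdef, Finset.mem_filter, Finset.mem_univ, true_and]
      exact Or.inr ⟨x, hx, hxy⟩)
  -- bound the sum
  have hb : ∀ x : Fin n → Bool, (S x).card ≤ (if x ∈ A then T else 0) + (if x ∈ N then 0 else 1) := by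
    intro x
    by_cases hx : x ∈ A
    · simp only [hx, if_true]
      have : (S x).card ≤ T := by
        calc (S x).card ≤ (Finset.univ : Finset (Fin T)).card := Finset.card_le_univ _
          _ = T := by simp
      omega
    · simp only [hx, if_false, zero_add]
      by_cases hxN : x ∈ N
      · simp only [hxN, if_true]
        simp only [hNdef, Finset.mem_filter, Finset.mem_univ, true_and] at hxN
        rcases hxN with h | ⟨z, hz, hzx⟩
        · exact absurd h hx
        · rw [hfar z hz x hzx]; simp
      · simp only [hxN, if_false]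
        have := (hAmem x).not.mp hx
        omega
  have hsumN : ∑ x : Fin n → Bool, (if x ∈ N then 0 else 1) + N.card = 2 ^ n := by
    have : ∑ x : Fin n → Bool, (if x ∈ N then 0 else 1) = (Finset.univ.filter fun x => x ∉ N).card := by
      rw [Finset.card_filter]
      apply Finset.sum_congr rfl
      intro x _
      by_cases h : x ∈ N <;> simp [h]
    rw [this]
    have h2 := Finset.card_filter_add_card_filter_not (s := (Finset.univ : Finset (Fin n → Bool)))
      (fun x => x ∈ N)
    simp only [Finset.card_univ, Fintype.card_fun, Fintype.card_bool, Fintype.card_fin] at h2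
    have h3 : (Finset.univ.filter fun x => x ∈ N) = N := by ext; simp
    rw [h3] at h2
    omega
  calc J.card = ∑ x : Fin n → Bool, (S x).card := hcard
    _ ≤ ∑ x : Fin n → Bool, ((if x ∈ A then T else 0) + (if x ∈ N then 0 else 1)) :=
        Finset.sum_le_sum (fun x _ => hb x)
    _ = T * A.card + ∑ x : Fin n → Bool, (if x ∈ N then 0 else 1) := by
        rw [Finset.sum_add_distrib]
        congr 1
        rw [← Finset.sum_filter]
        simp [mul_comm]
    _ ≤ 2 ^ n := by omega


/-! ## GREEDY keeps the total bounded -/

theorem content_nonneg {V : Type} [Fintype V] {a : ℕ → V → ℝ} {I : ℕ → Finset V}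
    (ha : ∀ t, IsPour (a t)) : ∀ t v, 0 ≤ content a I t v := by
  intro t
  induction t with
  | zero => intro v; exact (ha 0).1 v
  | succ t ih =>
    intro v
    simp only [content]
    have := (ha (t+1)).1 v
    split_ifs
    · linarith
    · have := ih v; linarith

theorem greedy_total {V : Type} [Fintype V] (G : SimpleGraph V) (a : ℕ → V → ℝ)
    (I : ℕ → Finset V) (ha : ∀ t, IsPour (a t))
    (hI : ∀ t, IsGreedyChoice G (content a I t) (I t)) :
    ∀ t, ∑ v, content a I t v ≤ Fintype.card V := by
  classical
  have hne : 0 < Fintype.card V := by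
    by_contra h
    have h0 : Fintype.card V = 0 := by omega
    have := (ha 0).2
    have hemp : IsEmpty V := Fintype.card_eq_zero_iff.mp h0
    simp at this
  have hne' : (0:ℝ) < Fintype.card V := by exact_mod_cast hne
  have hne1 : (1:ℝ) ≤ Fintype.card V := by exact_mod_cast hne
  intro t
  induction t with
  | zero => simp only [content]; rw [(ha 0).2]; exact hne1
  | succ t ih =>
    simp only [content]
    rw [Finset.sum_add_distrib, (ha (t+1)).2]
    have hsplit : ∑ v, (if v ∈ I t then 0 else content a I t v)
        = ∑ v, content a I t v - ∑ v ∈ I t, content a I t v := by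
      have h1 : ∑ v, content a I t v = ∑ v, ((if v ∈ I t then content a I t v else 0)
          + (if v ∈ I t then 0 else content a I t v)) := by
        apply Finset.sum_congr rfl
        intro v _
        split_ifs <;> simp
      rw [Finset.sum_add_distrib] at h1
      have h2 : ∑ v, (if v ∈ I t then content a I t v else 0) = ∑ v ∈ I t, content a I t v := by
        rw [← Finset.sum_filter]
        congr 1
        ext v; simp
      linarith
    rw [hsplit]
    -- the greedy set has at least the average weight
    have hmax : ∀ v, content a I t v ≤ ∑ w ∈ I t, content a I t w := by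
      intro v
      have := (hI t).2 {v} (by simp [SimpleGraph.IsIndepSet])
      simpa using this
    have havg : ∑ v, content a I t v ≤ Fintype.card V * ∑ w ∈ I t, content a I t w := by
      calc ∑ v, content a I t v ≤ ∑ _v : V, ∑ w ∈ I t, content a I t w :=
            Finset.sum_le_sum (fun v _ => hmax v)
        _ = _ := by simp
    set X := ∑ v, content a I t v
    set g := ∑ w ∈ I t, content a I t w
    have hg : 0 ≤ g := Finset.sum_nonneg (fun v _ => content_nonneg ha t v)
    by_cases hcase : 1 ≤ g
    · linarith
    · push Not at hcase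
      -- X ≤ card * g  and g < 1
      have : X - g ≤ Fintype.card V * g - g := by linarith
      have h3 : (Fintype.card V : ℝ) * g - g = (Fintype.card V - 1) * g := by ring
      have h4 : ((Fintype.card V : ℝ) - 1) * g ≤ (Fintype.card V - 1) * 1 := by
        apply mul_le_mul_of_nonneg_left hcase.le; linarith
      linarith

theorem gBucketCap_set_nonempty {V : Type} [Fintype V] [Nonempty V] (G : SimpleGraph V) :
    (Fintype.card V : ℝ) ∈ {b : ℝ | 0 < b ∧ ∀ (a : ℕ → V → ℝ) (I : ℕ → Finset V),
      (∀ t, IsPour (a t)) →
      (∀ t, IsGreedyChoice G (content a I t) (I t)) → ∀ t v, content a I t v ≤ b} := by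
  refine ⟨by exact_mod_cast Fintype.card_pos, ?_⟩
  intro a I ha hI t v
  calc content a I t v ≤ ∑ w, content a I t w :=
        Finset.single_le_sum (f := fun w => content a I t w)
          (fun w _ => content_nonneg ha t w) (Finset.mem_univ v)
    _ ≤ _ := greedy_total G a I ha hI t

/-! ## The graph -/

/-- `none` is joined to everything; the rest is the product of the complete graph on `Fin T` with
the graph on the cube in which two points are adjacent when they differ in at least `n - m`
coordinates. -/
def theGraph (T n m : ℕ) : SimpleGraph (Option (Fin T × (Fin n → Bool))) where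
  Adj u v := match u, v with
    | none, some _ => True
    | some _, none => True
    | some p, some q => p.1 ≠ q.1 ∧ n ≤ hammingDist p.2 q.2 + m
    | none, none => False
  symm := ⟨by
    intro u v
    cases u <;> cases v <;> simp
    intro h1 h2
    refine ⟨fun h => h1 h.symm, ?_⟩
    rw [hammingDist_comm]; exact h2⟩
  loopless := ⟨by
    intro u
    cases u <;> simp⟩

/-! ## Lower bound for GREEDY -/

/-- the Stepmother's moves against GREEDY -/
noncomputable def pourSeq (T n r : ℕ) (t : ℕ) : Option (Fin T × (Fin n → Bool)) → ℝ
  | none => if t + r < T then 0 else 1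
  | some p => if t + r < T then (if t ≤ p.1.val then 1 / (((T:ℝ) - t) * 2 ^ n) else 0) else 0

open Classical in
/-- the sets emptied by GREEDY -/
noncomputable def setSeq (T n : ℕ) (t : ℕ) : Finset (Option (Fin T × (Fin n → Bool))) :=
  if t < T then Finset.univ.filter fun v => ∃ p, v = some p ∧ p.1.val = t else {none}

/-- the weight of an alive part at time `t` -/
noncomputable def wt (T r t : ℕ) : ℝ := ∑ s ∈ Finset.range (min (t + 1) (T - r)), 1 / ((T:ℝ) - s)

theorem wt_nonneg (T r t : ℕ) : 0 ≤ wt T r t := by
  unfold wt
  apply Finset.sum_nonneg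
  intro s hs
  rw [Finset.mem_range] at hs
  have : s < T := by omega
  have : (s:ℝ) < T := by exact_mod_cast this
  have : (0:ℝ) < (T:ℝ) - s := by linarith
  positivity

theorem pourSeq_isPour (T n r : ℕ) (t : ℕ) : IsPour (pourSeq T n r t) := by
  constructor
  · intro v
    cases v with
    | none => simp only [pourSeq]; split_ifs <;> norm_num
    | some p =>
      simp only [pourSeq]
      split_ifs with h1 h2
      · have h3 : (t:ℝ) < T := by exact_mod_cast (by omega : t < T)
        have h4 : (0:ℝ) < (T:ℝ) - t := by linarith
        positivity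
      · exact le_refl _
      · exact le_refl _
  · rw [Fintype.sum_option]
    simp only [pourSeq]
    split_ifs with h1
    · rw [Fintype.sum_prod_type]
      have h0 : ∀ i : Fin T, ∑ _x : Fin n → Bool,
          (if t ≤ i.val then 1 / (((T:ℝ) - t) * 2 ^ n) else 0)
            = (2:ℝ) ^ n * (if t ≤ i.val then 1 / (((T:ℝ) - t) * 2 ^ n) else 0) := by
        intro i; simp
      rw [Finset.sum_congr rfl (fun i _ => h0 i)]
      have h3 : (t:ℝ) < T := by exact_mod_cast (by omega : t < T)
      have h4 : (0:ℝ) < (T:ℝ) - t := by linarith
      have h5 : ∀ i : Fin T, (2:ℝ) ^ n * (if t ≤ i.val then 1 / (((T:ℝ) - t) * 2 ^ n) else 0)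
          = if t ≤ i.val then 1 / ((T:ℝ) - t) else 0 := by
        intro i
        split_ifs
        · field_simp
        · simp
      rw [Finset.sum_congr rfl (fun i _ => h5 i)]
      rw [← Finset.sum_filter]
      simp only [Finset.sum_const, nsmul_eq_mul]
      have h6 : (Finset.univ.filter fun i : Fin T => t ≤ i.val).card = T - t := by
        have h7 := Finset.card_filter_add_card_filter_not (s := (Finset.univ : Finset (Fin T)))
          (fun i => t ≤ i.val)
        have h8 : (Finset.univ.filter fun i : Fin T => ¬ t ≤ i.val).card = t := by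
          have : (Finset.univ.filter fun i : Fin T => ¬ t ≤ i.val) = Finset.univ.filter fun i : Fin T => i.val < t := by
            ext i; simp
          rw [this, Fin.card_filter_val_lt]
          omega
        simp only [Finset.card_univ, Fintype.card_fin] at h7
        omega
      rw [h6, Nat.cast_sub (by omega)]
      field_simp
      ring
    · simp

/-- closed form of the contents -/
noncomputable def closed (T n r : ℕ) (t : ℕ) : Option (Fin T × (Fin n → Bool)) → ℝ
  | none => if t + r < T then 0 else if t ≤ T then (t:ℝ) + r - T + 1 else 1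
  | some p => if p.1.val < t then 0 else wt T r t / 2 ^ n

theorem content_eq_closed (T n r : ℕ) (hr : 1 ≤ r) (hrT : r ≤ T) : ∀ t v,
    content (pourSeq T n r) (setSeq T n) t v = closed T n r t v := by
  intro t
  induction t with
  | zero =>
    intro v
    cases v with
    | none =>
      simp only [content, pourSeq, closed]
      split_ifs with h1 h2
      · rfl
      · have : T = r := by omega
        subst this; simp
      · omega
    | some p =>
      simp only [content, pourSeq, closed]
      have hp := p.1.isLt
      have hn0 : ¬ (p.1.val < 0) := by omega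
      have hn1 : 0 ≤ p.1.val := by omega
      simp only [hn0, hn1, if_true, if_false]
      unfold wt
      split_ifs with h1
      · have : min (0 + 1) (T - r) = 1 := by omega
        rw [this]
        simp
        ring
      · have : min (0 + 1) (T - r) = 0 := by omega
        rw [this]; simp
  | succ t ih =>
    intro v
    simp only [content]
    rw [ih v]
    cases v with
    | none =>
      simp only [pourSeq, closed, setSeq]
      by_cases htT : t < T
      · simp only [htT, if_true]
        have hmem : (none : Option (Fin T × (Fin n → Bool))) ∉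
            (Finset.univ.filter fun v => ∃ p, v = some p ∧ p.1.val = t) := by
          simp
        rw [if_neg hmem]
        by_cases h1 : t + 1 + r < T
        · have h2 : t + r < T := by omega
          simp [h1, h2]
        · by_cases h2 : t + r < T
          · have h3 : t + 1 + r = T := by omega
            have h4 : t + 1 ≤ T := by omega
            simp only [h1, h2, if_true, if_false, h4]
            have : (T:ℝ) = t + 1 + r := by exact_mod_cast h3.symm
            rw [this]; push_cast; ring
          · have h4 : t + 1 ≤ T := by omega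
            have h5 : t ≤ T := by omega
            simp only [h1, h2, if_true, if_false, h4, h5]
            push_cast; ring
      · simp only [htT, if_false]
        simp only [Finset.mem_singleton, if_true]
        have h1 : ¬ (t + 1 + r < T) := by omega
        have h2 : ¬ (t + 1 ≤ T) := by omega
        simp [h1, h2]
    | some p =>
      simp only [pourSeq, closed, setSeq]
      have hp := p.1.isLt
      by_cases htT : t < T
      · simp only [htT, if_true]
        by_cases hpt : p.1.val = t
        · have hmem : (some p : Option (Fin T × (Fin n → Bool))) ∈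
              (Finset.univ.filter fun v => ∃ q, v = some q ∧ q.1.val = t) :=
            Finset.mem_filter.mpr ⟨Finset.mem_univ _, p, rfl, hpt⟩
          rw [if_pos hmem]
          have h1 : ¬ (t + 1 ≤ p.1.val) := by omega
          have h2 : p.1.val < t + 1 := by omega
          simp [h1, h2]
        · have hmem : (some p : Option (Fin T × (Fin n → Bool))) ∉
              (Finset.univ.filter fun v => ∃ q, v = some q ∧ q.1.val = t) := by
            intro hm
            obtain ⟨_, q, hq, hq2⟩ := Finset.mem_filter.mp hm
            have : p = q := Option.some.inj hq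
            rw [this] at hpt
            exact hpt hq2
          rw [if_neg hmem]
          by_cases h1 : p.1.val < t
          · have h2 : ¬ (t + 1 ≤ p.1.val) := by omega
            have h3 : p.1.val < t + 1 := by omega
            simp [h1, h2, h3]
          · have h2 : t + 1 ≤ p.1.val := by omega
            have h3 : ¬ (p.1.val < t + 1) := by omega
            simp only [h1, h2, h3, if_true, if_false]
            by_cases h4 : t + 1 + r < T
            · simp only [h4, if_true]
              unfold wt
              have e1 : min (t + 1) (T - r) = t + 1 := by omega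
              have e2 : min (t + 1 + 1) (T - r) = t + 1 + 1 := by omega
              rw [e1, e2, Finset.sum_range_succ _ (t + 1)]
              have h5 : (t:ℝ) + 1 < T := by exact_mod_cast (by omega : t + 1 < T)
              have h6 : (0:ℝ) < (T:ℝ) - (t + 1) := by linarith
              push_cast
              field_simp
            · simp only [h4, if_false]
              unfold wt
              have e1 : min (t + 1) (T - r) = T - r := by omega
              have e2 : min (t + 1 + 1) (T - r) = T - r := by omega
              rw [e1, e2]; simp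
      · simp only [htT, if_false]
        have hmem : (some p : Option (Fin T × (Fin n → Bool))) ∉
              ({none} : Finset (Option (Fin T × (Fin n → Bool)))) := by
            simp
        rw [if_neg hmem]
        have h1 : p.1.val < t := by omega
        have h2 : ¬ (t + 1 + r < T) := by omega
        have h3 : p.1.val < t + 1 := by omega
        simp [h1, h2, h3]


/-- independent sets of the graph -/
theorem indep_cases {T n m : ℕ} (J : Finset (Option (Fin T × (Fin n → Bool))))
    (hJ : (theGraph T n m).IsIndepSet (J : Set _)) :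
    J = {none} ∨ none ∉ J := by
  by_cases h : none ∈ J
  · left
    ext v
    constructor
    · intro hv
      cases v with
      | none => simp
      | some p =>
        exfalso
        have := hJ (Finset.mem_coe.mpr h) (Finset.mem_coe.mpr hv) (by simp)
        exact this (by simp [theGraph])
    · intro hv
      rw [Finset.mem_singleton] at hv
      rw [hv]; exact h
  · right; exact h

theorem indep_card {T n m : ℕ}
    (hT : ∀ A : Finset (Fin n → Bool), (∀ x ∈ A, ∀ y ∈ A, hammingDist x y + m < n) →
      T * A.card ≤ 2 ^ n)
    (J : Finset (Option (Fin T × (Fin n → Bool))))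
    (hJ : (theGraph T n m).IsIndepSet (J : Set _)) (hn : none ∉ J) :
    J.card ≤ 2 ^ n := by
  classical
  set J' : Finset (Fin T × (Fin n → Bool)) := Finset.univ.filter fun p => some p ∈ J with hJ'
  have hmem : ∀ p, p ∈ J' ↔ some p ∈ J := by intro p; simp [hJ']
  have hcard : J.card = J'.card := by
    have himg : J = J'.image some := by
      ext v
      cases v with
      | none => simp [hn]
      | some p => simp [hmem]
    rw [himg, Finset.card_image_of_injective _ (Option.some_injective _)]
  rw [hcard]
  apply indep_prod hT
  intro p hp q hq hpq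
  by_contra hcon
  push Not at hcon
  have h1 := hJ (Finset.mem_coe.mpr ((hmem p).mp hp)) (Finset.mem_coe.mpr ((hmem q).mp hq))
    (fun h => hpq (by rw [Option.some.inj h]))
  exact h1 (by simp only [theGraph]; exact ⟨hpq, hcon⟩)

theorem setSeq_indep (T n m t : ℕ) :
    (theGraph T n m).IsIndepSet (setSeq T n t : Set _) := by
  unfold setSeq
  split_ifs with h
  · intro u hu v hv _ hadj
    obtain ⟨_, p, hp, hp2⟩ := Finset.mem_filter.mp (Finset.mem_coe.mp hu)
    obtain ⟨_, q, hq, hq2⟩ := Finset.mem_filter.mp (Finset.mem_coe.mp hv)
    subst hp hq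
    simp only [theGraph] at hadj
    exact hadj.1 (Fin.ext (by rw [hp2, hq2]))
  · simp [SimpleGraph.IsIndepSet]

theorem sum_setSeq {T n r t : ℕ} (ht : t < T) :
    ∑ v ∈ setSeq T n t, closed T n r t v = wt T r t := by
  classical
  unfold setSeq
  rw [if_pos ht]
  have himg : (Finset.univ.filter fun v : Option (Fin T × (Fin n → Bool)) =>
      ∃ p, v = some p ∧ p.1.val = t)
      = (Finset.univ : Finset (Fin n → Bool)).image (fun x => some (⟨t, ht⟩, x)) := by
    ext v
    constructor
    · intro h
      obtain ⟨_, p, hp, hp2⟩ := Finset.mem_filter.mp h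
      rw [Finset.mem_image]
      refine ⟨p.2, Finset.mem_univ _, ?_⟩
      rw [hp]
      congr 1
      exact Prod.ext (Fin.ext hp2.symm) rfl
    · intro h
      obtain ⟨x, _, hx⟩ := Finset.mem_image.mp h
      exact Finset.mem_filter.mpr ⟨Finset.mem_univ _, (⟨t, ht⟩, x), hx.symm, rfl⟩
  rw [himg, Finset.sum_image (by
    intro x _ y _ hxy
    have := Option.some.inj hxy
    exact (Prod.ext_iff.mp this).2)]
  simp only [closed, lt_irrefl, if_false, Finset.sum_const, Finset.card_univ, Fintype.card_fun,
    Fintype.card_bool, Fintype.card_fin, nsmul_eq_mul]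
  push_cast
  field_simp

theorem closed_nonneg (T n r t : ℕ) (v) : 0 ≤ closed T n r t v := by
  cases v with
  | none =>
    simp only [closed]
    split_ifs with h1 h2
    · exact le_refl _
    · have : (T:ℝ) ≤ t + r := by exact_mod_cast (by omega : T ≤ t + r)
      linarith
    · norm_num
  | some p =>
    simp only [closed]
    split_ifs
    · exact le_refl _
    · have := wt_nonneg T r t
      positivity

/-- every round of the play is a possible GREEDY round -/
theorem greedy_play {T n m r : ℕ} (hr : 1 ≤ r) (hrT : r ≤ T)
    (hw : (r:ℝ) ≤ ∑ s ∈ Finset.range (T - r), 1 / ((T:ℝ) - s))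
    (hT : ∀ A : Finset (Fin n → Bool), (∀ x ∈ A, ∀ y ∈ A, hammingDist x y + m < n) →
      T * A.card ≤ 2 ^ n) (t : ℕ) :
    IsGreedyChoice (theGraph T n m) (content (pourSeq T n r) (setSeq T n) t) (setSeq T n t) := by
  classical
  refine ⟨setSeq_indep T n m t, ?_⟩
  intro J hJ
  have hc : content (pourSeq T n r) (setSeq T n) t = closed T n r t := by
    funext v; exact content_eq_closed T n r hr hrT t v
  rw [hc]
  by_cases ht : t < T
  · rw [sum_setSeq ht]
    rcases indep_cases J hJ with h | h
    · rw [h, Finset.sum_singleton]
      simp only [closed]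
      split_ifs with h1 h2
      · exact wt_nonneg T r t
      · have e : min (t + 1) (T - r) = T - r := by omega
        unfold wt
        rw [e]
        have : (t:ℝ) + 1 ≤ T := by exact_mod_cast (by omega : t + 1 ≤ T)
        linarith
      · omega
    · have hcard := indep_card hT J hJ h
      calc ∑ v ∈ J, closed T n r t v ≤ ∑ _v ∈ J, wt T r t / 2 ^ n := by
            apply Finset.sum_le_sum
            intro v hv
            cases v with
            | none => exact absurd hv h
            | some p =>
              simp only [closed]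
              split_ifs
              · have := wt_nonneg T r t
                positivity
              · exact le_refl _
        _ = J.card * (wt T r t / 2 ^ n) := by simp
        _ ≤ (2:ℝ) ^ n * (wt T r t / 2 ^ n) := by
            have := wt_nonneg T r t
            apply mul_le_mul_of_nonneg_right
            · exact_mod_cast hcard
            · positivity
        _ = wt T r t := by field_simp
  · have hs : setSeq T n t = {none} := by
      unfold setSeq; rw [if_neg ht]
    rw [hs, Finset.sum_singleton]
    rcases indep_cases J hJ with h | h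
    · rw [h, Finset.sum_singleton]
    · have h0 : ∑ v ∈ J, closed T n r t v = 0 := by
        apply Finset.sum_eq_zero
        intro v hv
        cases v with
        | none => exact absurd hv h
        | some p =>
          simp only [closed]
          have := p.1.isLt
          rw [if_pos (by omega)]
      rw [h0]
      exact closed_nonneg T n r t none

theorem gBucketCap_lower {T n m r : ℕ} (hr : 1 ≤ r) (hrT : r ≤ T)
    (hw : (r:ℝ) ≤ ∑ s ∈ Finset.range (T - r), 1 / ((T:ℝ) - s))
    (hT : ∀ A : Finset (Fin n → Bool), (∀ x ∈ A, ∀ y ∈ A, hammingDist x y + m < n) →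
      T * A.card ≤ 2 ^ n) :
    (r:ℝ) + 1 ≤ gBucketCap (theGraph T n m) := by
  unfold gBucketCap
  apply le_csInf ⟨_, gBucketCap_set_nonempty _⟩
  rintro b ⟨_, hb⟩
  have h := hb (pourSeq T n r) (setSeq T n) (pourSeq_isPour T n r)
    (fun t => greedy_play hr hrT hw hT t) T none
  rw [content_eq_closed T n r hr hrT T none] at h
  simp only [closed] at h
  rw [if_neg (by omega), if_pos (le_refl _)] at h
  linarith

/-! ## Cinderella's strategy -/

/-- processing a list of moves (latest move first) when Cinderella answers with the position and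
time dependent rule `f` -/
noncomputable def run {V : Type} (f : ℕ → (V → ℝ) → Finset V) : List (V → ℝ) → (V → ℝ)
  | [] => fun _ => 0
  | x :: xs => fun v => (open Classical in if v ∈ f (xs.length - 1) (run f xs) then 0
      else run f xs v) + x v

theorem run_eq_content {V : Type} (f : ℕ → (V → ℝ) → Finset V) (a : ℕ → V → ℝ) :
    ∀ t, run f (history a t).reverse
      = content a (fun s => f ((history a s).length - 1) (run f (history a s).reverse)) t := by
  intro t
  induction t with
  | zero =>
    funext v
    by_cases hm : v ∈ f 0 (fun _ => 0)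
    · simp [history, run, content, hm]
    · simp [history, run, content, hm]
  | succ t ih =>
    funext v
    have h1 : (history a (t+1)).reverse = a (t+1) :: (history a t).reverse := by
      unfold history
      rw [List.range_succ, List.map_append, List.reverse_append]
      simp
    have h2 : ((history a t).reverse).length = (history a t).length := by simp
    have ih' := congrFun ih v
    rw [h1]
    simp only [run, content]
    rw [h2]
    by_cases hm : v ∈ f ((history a t).length - 1) (run f (history a t).reverse)
    · simp [hm]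
    · simp only [hm, if_false]
      rw [ih']


/-- a position and time dependent rule can be realised by a strategy -/
theorem bucketCap_le {V : Type} [Fintype V] (G : SimpleGraph V) (b : ℝ) (hb : 0 < b)
    (f : ℕ → (V → ℝ) → Finset V) (hf : ∀ t x, G.IsIndepSet (f t x : Set V))
    (h : ∀ (a : ℕ → V → ℝ) (I : ℕ → Finset V), (∀ t, IsPour (a t)) →
      (∀ t, I t = f t (content a I t)) → ∀ t v, content a I t v ≤ b) :
    bucketCap G ≤ b := by
  unfold bucketCap
  apply csInf_le ⟨0, fun c hc => hc.1.le⟩
  refine ⟨hb, fun l => f (l.length - 1) (run f l.reverse), fun l => hf _ _, ?_⟩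
  intro a ha t v
  apply h a _ ha
  intro s
  have h1 := run_eq_content f a s
  have h2 : (history a s).length - 1 = s := by simp [history]
  simp only [h2]
  rw [h1]

open Classical in
/-- emptying the buckets in `I` -/
noncomputable def clear {V : Type} (I : Finset V) (x : V → ℝ) : V → ℝ :=
  fun v => if v ∈ I then 0 else x v

section upper

variable {T n m : ℕ}

/-- total amount of water outside `none` -/
noncomputable def tot (x : Option (Fin T × (Fin n → Bool)) → ℝ) : ℝ := ∑ p, x (some p)

/-- total excess over level `1` outside `none` -/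
noncomputable def exc (x : Option (Fin T × (Fin n → Bool)) → ℝ) : ℝ :=
  ∑ p, max (x (some p) - 1) 0

/-- what Cinderella wants in a round of type `t % 3` -/
def Good (t : ℕ) (x : Option (Fin T × (Fin n → Bool)) → ℝ)
    (I : Finset (Option (Fin T × (Fin n → Bool)))) : Prop :=
  (t % 3 = 0 → none ∈ I) ∧
  (t % 3 = 1 → T * tot (clear I x) ≤ (T - 1) * tot x) ∧
  (t % 3 = 2 → 2 * exc (clear I x) ≤ exc x)

open Classical in
/-- Cinderella's rule -/
noncomputable def rule (m : ℕ) (t : ℕ) (x : Option (Fin T × (Fin n → Bool)) → ℝ) :
    Finset (Option (Fin T × (Fin n → Bool))) :=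
  if h : ∃ I : Finset (Option (Fin T × (Fin n → Bool))),
      (theGraph T n m).IsIndepSet (I : Set _) ∧ Good t x I then h.choose else ∅

theorem rule_indep (m t : ℕ) (x : Option (Fin T × (Fin n → Bool)) → ℝ) :
    (theGraph T n m).IsIndepSet (rule m t x : Set _) := by
  unfold rule
  split_ifs with h
  · exact h.choose_spec.1
  · simp [SimpleGraph.IsIndepSet]

theorem rule_good {m t : ℕ} {x : Option (Fin T × (Fin n → Bool)) → ℝ}
    (h : ∃ I : Finset (Option (Fin T × (Fin n → Bool))),
      (theGraph T n m).IsIndepSet (I : Set _) ∧ Good t x I) : Good t x (rule m t x) := by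
  unfold rule
  rw [dif_pos h]
  exact h.choose_spec.2

theorem tot_clear_le {x : Option (Fin T × (Fin n → Bool)) → ℝ} (hx : ∀ v, 0 ≤ x v)
    (I : Finset (Option (Fin T × (Fin n → Bool)))) : tot (clear I x) ≤ tot x := by
  unfold tot clear
  apply Finset.sum_le_sum
  intro p _
  have := hx (some p)
  split_ifs
  · exact this
  · exact le_refl _

theorem exc_clear_le {x : Option (Fin T × (Fin n → Bool)) → ℝ}
    (I : Finset (Option (Fin T × (Fin n → Bool)))) : exc (clear I x) ≤ exc x := by
  unfold exc clear
  apply Finset.sum_le_sum
  intro p _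
  split_ifs
  · have : max ((0:ℝ) - 1) 0 = 0 := by norm_num
    rw [this]; exact le_max_right _ _
  · exact le_refl _

/-- type 1 rounds: the heaviest part -/
theorem exists_part (hT1 : 1 ≤ T) (x : Option (Fin T × (Fin n → Bool)) → ℝ) :
    ∃ I : Finset (Option (Fin T × (Fin n → Bool))),
      (theGraph T n m).IsIndepSet (I : Set _) ∧ T * tot (clear I x) ≤ (T - 1) * tot x := by
  classical
  set P : Fin T → ℝ := fun i => ∑ y : Fin n → Bool, x (some (i, y)) with hP
  have htot : tot x = ∑ i, P i := by
    unfold tot
    rw [Fintype.sum_prod_type]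
  have : Nonempty (Fin T) := ⟨⟨0, hT1⟩⟩
  obtain ⟨i, hi⟩ := Finite.exists_max P
  refine ⟨Finset.univ.filter fun v => ∃ p, v = some p ∧ p.1 = i, ?_, ?_⟩
  · intro u hu v hv _ hadj
    obtain ⟨_, p, hp, hp2⟩ := Finset.mem_filter.mp (Finset.mem_coe.mp hu)
    obtain ⟨_, q, hq, hq2⟩ := Finset.mem_filter.mp (Finset.mem_coe.mp hv)
    subst hp hq
    simp only [theGraph] at hadj
    exact hadj.1 (by rw [hp2, hq2])
  · have h1 : tot (clear (Finset.univ.filter fun v : Option (Fin T × (Fin n → Bool)) =>
        ∃ p, v = some p ∧ p.1 = i) x) = tot x - P i := by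
      unfold tot
      rw [Fintype.sum_prod_type, Fintype.sum_prod_type]
      have h2 : ∀ j : Fin T, ∑ y : Fin n → Bool, clear (Finset.univ.filter
          fun v : Option (Fin T × (Fin n → Bool)) => ∃ p, v = some p ∧ p.1 = i) x (some (j, y))
          = P j - (if j = i then P i else 0) := by
        intro j
        unfold clear
        by_cases hj : j = i
        · subst hj
          rw [if_pos rfl, sub_self]
          apply Finset.sum_eq_zero
          intro y _
          rw [if_pos (Finset.mem_filter.mpr ⟨Finset.mem_univ _, (j, y), rfl, rfl⟩)]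
        · rw [if_neg hj, sub_zero]
          apply Finset.sum_congr rfl
          intro y _
          rw [if_neg]
          intro hm
          obtain ⟨_, p, hp, hp2⟩ := Finset.mem_filter.mp hm
          have := Option.some.inj hp
          rw [← this] at hp2
          exact hj hp2
      rw [Finset.sum_congr rfl (fun j _ => h2 j), Finset.sum_sub_distrib]
      simp [hP]
    rw [h1, htot]
    have h3 : ∑ j, P j ≤ T * P i := by
      calc ∑ j, P j ≤ ∑ _j : Fin T, P i := Finset.sum_le_sum (fun j _ => hi j)
        _ = T * P i := by simp
    nlinarith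

/-- small sets are bipartite: type 2 rounds -/
theorem exists_half (hk : 9 * T ^ 2 * m < n) (x : Option (Fin T × (Fin n → Bool)) → ℝ)
    (hx : ∀ v, 0 ≤ x v) (hW : tot x ≤ 3 * T) :
    ∃ I : Finset (Option (Fin T × (Fin n → Bool))),
      (theGraph T n m).IsIndepSet (I : Set _) ∧ 2 * exc (clear I x) ≤ exc x := by
  classical
  set S : Finset (Fin T × (Fin n → Bool)) := Finset.univ.filter fun p => 1 < x (some p) with hS
  have hScard : S.card ≤ 3 * T := by
    have h1 : (S.card : ℝ) ≤ tot x := by
      calc (S.card : ℝ) = ∑ _p ∈ S, (1:ℝ) := by simp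
        _ ≤ ∑ p ∈ S, x (some p) := by
            apply Finset.sum_le_sum
            intro p hp
            exact (Finset.mem_filter.mp hp).2.le
        _ ≤ ∑ p, x (some p) := Finset.sum_le_univ_sum_of_nonneg (fun p => hx _)
    have : (S.card : ℝ) ≤ ((3 * T : ℕ) : ℝ) := by push_cast; linarith
    exact_mod_cast this
  -- bad coordinates
  set Bad : Finset (Fin n) := (S ×ˢ S).biUnion fun pq =>
    if (theGraph T n m).Adj (some pq.1) (some pq.2) then
      Finset.univ.filter (fun c => pq.1.2 c = pq.2.2 c) else ∅ with hBad
  have hBadcard : Bad.card < n := by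
    calc Bad.card ≤ ∑ pq ∈ S ×ˢ S, (if (theGraph T n m).Adj (some pq.1) (some pq.2) then
          Finset.univ.filter (fun c => pq.1.2 c = pq.2.2 c) else ∅).card := Finset.card_biUnion_le
      _ ≤ ∑ _pq ∈ S ×ˢ S, m := by
          apply Finset.sum_le_sum
          intro pq _
          split_ifs with hadj
          · simp only [theGraph] at hadj
            have h2 := hadj.2
            have h3 := Finset.card_filter_add_card_filter_not (s := (Finset.univ : Finset (Fin n)))
              (fun i => pq.1.2 i = pq.2.2 i)
            simp only [Finset.card_univ, Fintype.card_fin] at h3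
            unfold hammingDist at h2
            have h4 : (Finset.univ.filter fun i => ¬ (pq.1.2 i = pq.2.2 i)).card
              = (Finset.univ.filter fun i => pq.1.2 i ≠ pq.2.2 i).card := rfl
            omega
          · simp
      _ = S.card * S.card * m := by simp
      _ ≤ (3 * T) * (3 * T) * m := by gcongr
      _ = 9 * T ^ 2 * m := by ring
      _ < n := hk
  obtain ⟨c, hc⟩ : ∃ c : Fin n, c ∉ Bad := by
    by_contra hcon
    push Not at hcon
    have : Bad = Finset.univ := by ext c; simp [hcon c]
    rw [this] at hBadcard
    simp at hBadcard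
  have hedge : ∀ p ∈ S, ∀ q ∈ S, p.2 c = q.2 c → ¬ (theGraph T n m).Adj (some p) (some q) := by
    intro p hp q hq hpq hadj
    apply hc
    rw [hBad, Finset.mem_biUnion]
    refine ⟨(p, q), Finset.mem_product.mpr ⟨hp, hq⟩, ?_⟩
    simp only
    rw [if_pos hadj]
    simp [hpq]
  -- the two halves
  set H : Bool → Finset (Option (Fin T × (Fin n → Bool))) := fun b =>
    (S.filter fun p => p.2 c = b).image some with hH
  have hHind : ∀ b, (theGraph T n m).IsIndepSet (H b : Set _) := by
    intro b u hu v hv _ hadj
    obtain ⟨p, hp, rfl⟩ := Finset.mem_image.mp (Finset.mem_coe.mp hu)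
    obtain ⟨q, hq, rfl⟩ := Finset.mem_image.mp (Finset.mem_coe.mp hv)
    rw [Finset.mem_filter] at hp hq
    exact hedge p hp.1 q hq.1 (by rw [hp.2, hq.2]) hadj
  have hmemH : ∀ b p, some p ∈ H b ↔ p ∈ S ∧ p.2 c = b := by
    intro b p
    simp only [hH, Finset.mem_image, Finset.mem_filter]
    constructor
    · rintro ⟨q, hq, hqp⟩
      rw [← Option.some.inj hqp]; exact hq
    · intro h; exact ⟨p, h, rfl⟩
  have hsum : exc (clear (H true) x) + exc (clear (H false) x) = exc x := by
    unfold exc clear
    rw [← Finset.sum_add_distrib]
    apply Finset.sum_congr rfl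
    intro p _
    by_cases hp : p ∈ S
    · cases hb : p.2 c
      · have h1 : some p ∉ H true := by rw [hmemH]; simp [hb]
        have h2 : some p ∈ H false := by rw [hmemH]; exact ⟨hp, hb⟩
        rw [if_neg h1, if_pos h2]
        norm_num
      · have h1 : some p ∈ H true := by rw [hmemH]; exact ⟨hp, hb⟩
        have h2 : some p ∉ H false := by rw [hmemH]; simp [hb]
        rw [if_pos h1, if_neg h2]
        norm_num
    · have hle : x (some p) ≤ 1 := by
        by_contra hcon
        push Not at hcon
        exact hp (Finset.mem_filter.mpr ⟨Finset.mem_univ _, hcon⟩)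
      have h1 : some p ∉ H true := by rw [hmemH]; tauto
      have h2 : some p ∉ H false := by rw [hmemH]; tauto
      rw [if_neg h1, if_neg h2]
      have : max (x (some p) - 1) 0 = 0 := max_eq_right (by linarith)
      rw [this]; norm_num
  rcases le_total (exc (clear (H true) x)) (exc (clear (H false) x)) with h | h
  · exact ⟨H true, hHind true, by linarith⟩
  · exact ⟨H false, hHind false, by linarith⟩

theorem exists_good (hT1 : 1 ≤ T) (hk : 9 * T ^ 2 * m < n) (t : ℕ)
    (x : Option (Fin T × (Fin n → Bool)) → ℝ) (hx : ∀ v, 0 ≤ x v) (hW : tot x ≤ 3 * T) :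
    ∃ I : Finset (Option (Fin T × (Fin n → Bool))),
      (theGraph T n m).IsIndepSet (I : Set _) ∧ Good t x I := by
  have h3 : t % 3 < 3 := Nat.mod_lt _ (by norm_num)
  rcases (by omega : t % 3 = 0 ∨ t % 3 = 1 ∨ t % 3 = 2) with h | h | h
  · refine ⟨{none}, by simp [SimpleGraph.IsIndepSet], ?_⟩
    unfold Good
    refine ⟨fun _ => by simp, fun h' => by omega, fun h' => by omega⟩
  · obtain ⟨I, hI, hI2⟩ := exists_part (m := m) hT1 x
    refine ⟨I, hI, fun h' => by omega, fun _ => hI2, fun h' => by omega⟩
  · obtain ⟨I, hI, hI2⟩ := exists_half hk x hx hW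
    exact ⟨I, hI, fun h' => by omega, fun h' => by omega, fun _ => hI2⟩

theorem tot_add (x a : Option (Fin T × (Fin n → Bool)) → ℝ) (ha : IsPour a) :
    tot (fun v => x v + a v) ≤ tot x + 1 := by
  unfold tot
  rw [Finset.sum_add_distrib]
  have h1 := ha.2
  rw [Fintype.sum_option] at h1
  have := ha.1 none
  linarith

theorem exc_add (x a : Option (Fin T × (Fin n → Bool)) → ℝ) (ha : IsPour a) :
    exc (fun v => x v + a v) ≤ exc x + 1 := by
  unfold exc
  have h1 := ha.2
  rw [Fintype.sum_option] at h1
  have h0 := ha.1 none
  have h2 : ∑ p, max (x (some p) + a (some p) - 1) 0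
      ≤ ∑ p, (max (x (some p) - 1) 0 + a (some p)) := by
    apply Finset.sum_le_sum
    intro p _
    have := ha.1 (some p)
    apply max_le
    · have := le_max_left (x (some p) - 1) 0
      linarith
    · have := le_max_right (x (some p) - 1) 0
      linarith
  rw [Finset.sum_add_distrib] at h2
  linarith

theorem pour_le_one {a : Option (Fin T × (Fin n → Bool)) → ℝ} (ha : IsPour a) (v) : a v ≤ 1 := by
  rw [← ha.2]
  exact Finset.single_le_sum (f := a) (fun w _ => ha.1 w) (Finset.mem_univ v)

/-- the bounds right after the Stepmother's move in round `t` -/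
def Bnd (t : ℕ) (x : Option (Fin T × (Fin n → Bool)) → ℝ) : Prop :=
  (t % 3 = 0 → tot x ≤ 3 * T - 1 ∧ exc x ≤ 4 ∧ x none ≤ 3) ∧
  (t % 3 = 1 → tot x ≤ 3 * T ∧ exc x ≤ 5 ∧ x none ≤ 1) ∧
  (t % 3 = 2 → tot x ≤ 3 * T - 2 ∧ exc x ≤ 6 ∧ x none ≤ 2)

theorem bnd_tot {t : ℕ} {x : Option (Fin T × (Fin n → Bool)) → ℝ} (h : Bnd t x) :
    tot x ≤ 3 * T := by
  have h3 : t % 3 < 3 := Nat.mod_lt _ (by norm_num)
  rcases (by omega : t % 3 = 0 ∨ t % 3 = 1 ∨ t % 3 = 2) with h' | h' | h'
  · have := (h.1 h').1; linarith
  · exact (h.2.1 h').1
  · have := (h.2.2 h').1; linarith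

theorem bnd_content (hT1 : 1 ≤ T) (hk : 9 * T ^ 2 * m < n)
    (a : ℕ → Option (Fin T × (Fin n → Bool)) → ℝ)
    (I : ℕ → Finset (Option (Fin T × (Fin n → Bool)))) (ha : ∀ t, IsPour (a t))
    (hI : ∀ t, I t = rule m t (content a I t)) : ∀ t, Bnd t (content a I t) := by
  have hT1' : (1:ℝ) ≤ T := by exact_mod_cast hT1
  intro t
  induction t with
  | zero =>
    refine ⟨fun _ => ?_, fun h => by omega, fun h => by omega⟩
    have h1 : content a I 0 = fun v => (fun _ => (0:ℝ)) v + a 0 v := by
      funext v; simp [content]
    have h2 := tot_add (fun _ => (0:ℝ)) (a 0) (ha 0)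
    have h3 := exc_add (fun _ => (0:ℝ)) (a 0) (ha 0)
    rw [← h1] at h2 h3
    have h4 : tot (T := T) (n := n) (fun _ => (0:ℝ)) = 0 := by simp [tot]
    have h5 : exc (T := T) (n := n) (fun _ => (0:ℝ)) = 0 := by simp [exc]
    have h6 := pour_le_one (ha 0) none
    rw [h4] at h2
    rw [h5] at h3
    refine ⟨by linarith, by linarith, ?_⟩
    simp only [content]; linarith
  | succ t ih =>
    have hnn := content_nonneg (I := I) ha t
    have hgood : Good t (content a I t) (I t) := by
      rw [hI t]
      exact rule_good (exists_good hT1 hk t _ hnn (bnd_tot ih))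
    have hc : content a I (t+1) = fun v => clear (I t) (content a I t) v + a (t+1) v := by
      funext v
      simp only [content, clear]
    have h2 := tot_add (clear (I t) (content a I t)) (a (t+1)) (ha (t+1))
    have h3 := exc_add (clear (I t) (content a I t)) (a (t+1)) (ha (t+1))
    rw [← hc] at h2 h3
    have h4 := tot_clear_le hnn (I t)
    have h5 := exc_clear_le (x := content a I t) (I t)
    have h6 := pour_le_one (ha (t+1)) none
    have h7 : content a I (t+1) none ≤ clear (I t) (content a I t) none + 1 := by
      rw [hc]; simp only; linarith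
    have h8 : clear (I t) (content a I t) none ≤ content a I t none := by
      unfold clear
      have := hnn none
      split_ifs
      · exact this
      · exact le_refl _
    have h9 : t % 3 < 3 := Nat.mod_lt _ (by norm_num)
    rcases (by omega : t % 3 = 0 ∨ t % 3 = 1 ∨ t % 3 = 2) with h' | h' | h'
    · refine ⟨fun h => by omega, fun _ => ?_, fun h => by omega⟩
      obtain ⟨b1, b2, b3⟩ := ih.1 h'
      have hg := hgood.1 h'
      have h10 : clear (I t) (content a I t) none = 0 := by
        unfold clear; rw [if_pos hg]
      refine ⟨by linarith, by linarith, by linarith⟩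
    · refine ⟨fun h => by omega, fun h => by omega, fun _ => ?_⟩
      obtain ⟨b1, b2, b3⟩ := ih.2.1 h'
      have hg := hgood.2.1 h'
      have h10 : tot (clear (I t) (content a I t)) ≤ 3 * T - 3 := by
        have h11 : (T - 1) * tot (content a I t) ≤ ((T:ℝ) - 1) * (3 * T) := by
          apply mul_le_mul_of_nonneg_left b1; linarith
        have h12 : (T:ℝ) * tot (clear (I t) (content a I t)) ≤ T * (3 * T - 3) := by linarith
        exact le_of_mul_le_mul_left h12 (by linarith)
      refine ⟨by linarith, by linarith, by linarith⟩
    · refine ⟨fun _ => ?_, fun h => by omega, fun h => by omega⟩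
      obtain ⟨b1, b2, b3⟩ := ih.2.2 h'
      have hg := hgood.2.2 h'
      refine ⟨by linarith, by linarith, by linarith⟩

theorem bucketCap_upper (hT1 : 1 ≤ T) (hk : 9 * T ^ 2 * m < n) :
    bucketCap (theGraph T n m) ≤ 7 := by
  apply bucketCap_le _ 7 (by norm_num) (rule m) (fun t x => rule_indep m t x)
  intro a I ha hI t v
  have hb := bnd_content hT1 hk a I ha hI t
  have hnn := content_nonneg (I := I) ha t
  have h3 : t % 3 < 3 := Nat.mod_lt _ (by norm_num)
  have h6 : exc (content a I t) ≤ 6 ∧ content a I t none ≤ 7 := by
    rcases (by omega : t % 3 = 0 ∨ t % 3 = 1 ∨ t % 3 = 2) with h' | h' | h'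
    · have := hb.1 h'; exact ⟨by linarith [this.2.1], by linarith [this.2.2]⟩
    · have := hb.2.1 h'; exact ⟨by linarith [this.2.1], by linarith [this.2.2]⟩
    · have := hb.2.2 h'; exact ⟨by linarith [this.2.1], by linarith [this.2.2]⟩
  cases v with
  | none => exact h6.2
  | some p =>
    have h7 : max (content a I t (some p) - 1) 0 ≤ exc (content a I t) := by
      unfold exc
      exact Finset.single_le_sum (f := fun p => max (content a I t (some p) - 1) 0)
        (fun q _ => le_max_right _ _) (Finset.mem_univ p)
    have h8 := le_max_left (content a I t (some p) - 1) 0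
    linarith [h6.1]

end upper

/-- **Main theorem.** The gap between the greedy bucket number and the bucket number is unbounded:
for every real `C` there is a finite simple graph whose bucket number is at most `6` and whose
greedy bucket number exceeds its bucket number by more than `C`. -/
theorem unbounded_gap : ∀ C : ℝ, ∃ (V : Type) (_ : Fintype V) (G : SimpleGraph V),
    bucket G ≤ 6 ∧ C < gBucket G - bucket G := by
  intro C
  obtain ⟨r, hr⟩ := exists_nat_gt (max (C + 6) 1)
  have hr1 : 1 ≤ r := by
    have h1 : (1:ℝ) < r := lt_of_le_of_lt (le_max_right _ _) hr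
    have : 1 < r := by exact_mod_cast h1
    omega
  have hrC : C + 6 < r := lt_of_le_of_lt (le_max_left _ _) hr
  -- choose T
  obtain ⟨T, hrT, hw⟩ : ∃ T, r ≤ T ∧ (r:ℝ) ≤ ∑ s ∈ Finset.range (T - r), 1 / ((T:ℝ) - s) := by
    have hdiv := Real.tendsto_sum_range_one_div_nat_succ_atTop
    obtain ⟨T, hT1, hT2⟩ := ((hdiv.eventually_ge_atTop
      (r + ∑ i ∈ Finset.range r, 1 / ((i:ℝ) + 1))).and (Filter.eventually_ge_atTop r)).exists
    refine ⟨T, hT2, ?_⟩
    have h1 : ∑ i ∈ Finset.range T, 1 / ((i:ℝ) + 1)
        = ∑ i ∈ Finset.range r, 1 / ((i:ℝ) + 1)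
          + ∑ s ∈ Finset.range (T - r), 1 / (((r + s : ℕ):ℝ) + 1) := by
      have h2 : T = r + (T - r) := by omega
      conv_lhs => rw [h2]
      rw [Finset.sum_range_add]
    have h3 : ∑ s ∈ Finset.range (T - r), 1 / ((T:ℝ) - s)
        = ∑ s ∈ Finset.range (T - r), 1 / (((r + s : ℕ):ℝ) + 1) := by
      rw [← Finset.sum_range_reflect]
      apply Finset.sum_congr rfl
      intro s hs
      rw [Finset.mem_range] at hs
      congr 1
      have h4 : ((T - r - 1 - s : ℕ) : ℝ) = (T:ℝ) - r - 1 - s := by
        rw [Nat.cast_sub (by omega), Nat.cast_sub (by omega), Nat.cast_sub (by omega)]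
        push_cast; ring
      rw [h4]; push_cast; ring
    rw [h3]
    linarith
  have hT1 : 1 ≤ T := by omega
  obtain ⟨n, m, hm, hn, hT⟩ := exists_params T (9 * T ^ 2 + 1) (by omega)
  refine ⟨_, inferInstance, theGraph T n m, ?_, ?_⟩
  · have h1 : bucketCap (theGraph T n m) ≤ 7 := bucketCap_upper hT1 (by
      rw [hn]; nlinarith)
    unfold bucket; linarith
  · have h1 : bucketCap (theGraph T n m) ≤ 7 := bucketCap_upper hT1 (by
      rw [hn]; nlinarith)
    have h2 := gBucketCap_lower (n := n) (m := m) hr1 hrT hw hT
    unfold gBucket bucket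
    linarith

end Pool.Agent.Helper39.Bucket
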