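import Pool.Agent.Helper7.Comm.Defs2

set_option autoImplicit false

/-! # Lemma packet H7-P: polynomial identities in the free algebra of rank 2 -/

namespace Pool.Agent.Helper39.Comm

open Pool.Agent.Helper7.Comm Pool.Agent.Helper7.Comm.NC Pool.Agent.Helper57.Reduce

section ev

variable {K : Type} [Field K] {R : Type} [CommRing R] [Algebra K R]

/-- Value of the part of `F` with exactly `q` letters `1` (and length at most `N`) at the point
`α`: a letter `0` preceded by `k` letters `1` has value `α k`. -/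
def ev : ℕ → (ℕ → R) → ℕ → NC (Fin 2) K → R
  | 0, _, 0, F => algebraMap K R (F [])
  | 0, _, _ + 1, _ => 0
  | N + 1, α, 0, F => algebraMap K R (F []) + α 0 * ev N α 0 (D 0 F)
  | N + 1, α, q + 1, F => α 0 * ev N α (q + 1) (D 0 F) + ev N (fun i => α (i + 1)) q (D 1 F)

theorem ev_s0 (N : ℕ) (α : ℕ → R) (F : NC (Fin 2) K) :
    ev (N + 1) α 0 F = algebraMap K R (F []) + α 0 * ev N α 0 (D 0 F) := rfl

theorem ev_ss (N : ℕ) (α : ℕ → R) (q : ℕ) (F : NC (Fin 2) K) :
    ev (N + 1) α (q + 1) F = α 0 * ev N α (q + 1) (D 0 F) +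
      ev N (fun i => α (i + 1)) q (D 1 F) := rfl

theorem ev_add (N : ℕ) (α : ℕ → R) (q : ℕ) (F G : NC (Fin 2) K) :
    ev N α q (F + G) = ev N α q F + ev N α q G := by
  induction N generalizing α q F G with
  | zero => cases q <;> simp [ev]
  | succ N ih =>
    cases q with
    | zero => simp only [ev, D_add, ih, NC.add_apply, map_add]; ring
    | succ q => simp only [ev, D_add, ih]; ring

theorem ev_smul (N : ℕ) (α : ℕ → R) (q : ℕ) (c : K) (F : NC (Fin 2) K) :
    ev N α q (c • F) = algebraMap K R c * ev N α q F := by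
  induction N generalizing α q F with
  | zero => cases q <;> simp [ev]
  | succ N ih =>
    cases q with
    | zero => simp only [ev, D_smul, ih, NC.smul_apply, smul_eq_mul, map_mul]; ring
    | succ q => simp only [ev, D_smul, ih]; ring

theorem ev_zero (N : ℕ) (α : ℕ → R) (q : ℕ) : ev N α q (0 : NC (Fin 2) K) = 0 := by
  have := ev_smul N α q (0 : K) (0 : NC (Fin 2) K)
  simpa using this

theorem ev_sub (N : ℕ) (α : ℕ → R) (q : ℕ) (F G : NC (Fin 2) K) :
    ev N α q (F - G) = ev N α q F - ev N α q G := by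
  have := ev_add N α q (F - G) G
  rw [sub_add_cancel] at this
  rw [this]; ring

theorem D0_a : D 0 (letter 0 : NC (Fin 2) K) = 1 := by rw [D_letter]; simp
theorem D1_a : D 1 (letter 0 : NC (Fin 2) K) = 0 := by rw [D_letter]; simp
theorem D0_b : D 0 (letter 1 : NC (Fin 2) K) = 0 := by rw [D_letter]; simp
theorem D1_b : D 1 (letter 1 : NC (Fin 2) K) = 1 := by rw [D_letter]; simp

theorem D0_aF (F : NC (Fin 2) K) : D 0 (letter 0 * F) = F := by
  rw [D_mul, D0_a, letter_nil, zero_smul, zero_add, one_mul]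
theorem D1_aF (F : NC (Fin 2) K) : D 1 (letter 0 * F) = 0 := by
  rw [D_mul, D1_a, letter_nil, zero_smul, zero_add, zero_mul]
theorem D0_bF (F : NC (Fin 2) K) : D 0 (letter 1 * F) = 0 := by
  rw [D_mul, D0_b, letter_nil, zero_smul, zero_add, zero_mul]
theorem D1_bF (F : NC (Fin 2) K) : D 1 (letter 1 * F) = F := by
  rw [D_mul, D1_b, letter_nil, zero_smul, zero_add, one_mul]

theorem ev_aF (N : ℕ) (α : ℕ → R) (q : ℕ) (F : NC (Fin 2) K) :
    ev (N + 1) α q (letter 0 * F) = α 0 * ev N α q F := by
  cases q with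
  | zero => simp only [ev, D0_aF, mul_nil, letter_nil, zero_mul, map_zero, zero_add]
  | succ q => simp only [ev, D0_aF, D1_aF, ev_zero, add_zero]

theorem ev_bF (N : ℕ) (α : ℕ → R) (q : ℕ) (F : NC (Fin 2) K) :
    ev (N + 1) α (q + 1) (letter 1 * F) = ev N (fun i => α (i + 1)) q F := by
  simp only [ev, D0_bF, D1_bF, ev_zero, mul_zero, zero_add]

theorem ev_one (N : ℕ) (α : ℕ → R) (q : ℕ) :
    ev N α q (1 : NC (Fin 2) K) = if q = 0 then 1 else 0 := by
  cases N with
  | zero => cases q <;> simp [ev]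
  | succ N =>
    cases q with
    | zero => simp [ev, ev_zero]
    | succ q => simp [ev, ev_zero]

theorem ev_Fa (N : ℕ) (α : ℕ → R) (q : ℕ) (F : NC (Fin 2) K) :
    ev (N + 1) α q (F * letter 0) = α q * ev N α q F := by
  induction N generalizing α q F with
  | zero =>
    cases q with
    | zero =>
      simp only [ev, mul_nil, letter_nil, mul_zero, map_zero, zero_add, D_mul, NC.add_apply,
        NC.smul_apply, D0_a, one_nil, smul_eq_mul, mul_one, add_zero]
    | succ q =>
      cases q with
      | zero =>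
        simp only [ev, mul_nil, letter_nil, mul_zero, map_zero, zero_add, D_mul, NC.add_apply,
          NC.smul_apply, D1_a, NC.zero_apply, smul_eq_mul, add_zero]
      | succ q => simp only [ev, mul_zero, add_zero]
  | succ N ih =>
    cases q with
    | zero =>
      rw [ev_s0 (N + 1), ev_s0 N α F, mul_nil, letter_nil, mul_zero, map_zero, zero_add, D_mul,
        D0_a, ev_add, ev_smul, ev_one, if_pos rfl, ih, mul_one]
    | succ q =>
      rw [ev_ss (N + 1), ev_ss N α q F, D_mul, D_mul, D0_a, D1_a, smul_zero, zero_add, ev_add,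
        ev_smul, ev_one, if_neg (Nat.succ_ne_zero q), ih, ih]
      ring

theorem ev_zero_Fb (N : ℕ) (α : ℕ → R) (F : NC (Fin 2) K) :
    ev N α 0 (F * letter 1) = 0 := by
  induction N generalizing α F with
  | zero => simp [ev, letter_nil]
  | succ N ih =>
    simp only [ev, D_mul, D0_b, smul_zero, zero_add, ih, mul_nil, letter_nil, mul_zero, map_zero]

theorem ev_Fb (N : ℕ) (α : ℕ → R) (q : ℕ) (F : NC (Fin 2) K) :
    ev (N + 1) α (q + 1) (F * letter 1) = ev N α q F := by
  induction N generalizing α q F with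
  | zero =>
    cases q with
    | zero =>
      simp only [ev, mul_nil, letter_nil, mul_zero, zero_add, D_mul, NC.add_apply,
        NC.smul_apply, D1_b, one_nil, smul_eq_mul, mul_one, add_zero]
    | succ q => simp only [ev, mul_zero, add_zero]
  | succ N ih =>
    cases q with
    | zero =>
      rw [ev_ss (N + 1), ev_s0 N α F, D_mul, D_mul, D0_b, D1_b, smul_zero,
        zero_add (D 0 F * letter 1), ih, ev_add, ev_smul, ev_one, if_pos rfl, ev_zero_Fb]
      ring
    | succ q =>
      rw [ev_ss (N + 1), ev_ss N α q F, D_mul, D_mul, D0_b, D1_b, smul_zero, zero_add, ih, ev_add,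
        ev_smul, ev_one, if_neg (Nat.succ_ne_zero q), ih]
      ring

theorem adp_succ (n : ℕ) : (adp (n + 1) : NC (Fin 2) K) = letter 0 * adp n - adp n * letter 0 := by
  rw [adp, Ring.lie_def]

theorem ev_adpF (N n : ℕ) (α : ℕ → R) (q : ℕ) (F : NC (Fin 2) K) :
    ev (N + n + 1) α (q + 1) (adp n * F) = (α 0 - α 1) ^ n * ev N (fun i => α (i + 1)) q F := by
  induction n generalizing N F with
  | zero => rw [adp, add_zero, ev_bF, pow_zero, one_mul]
  | succ n ih =>
    rw [adp_succ, sub_mul, ev_sub, mul_assoc, mul_assoc, ← add_assoc, ev_aF, ih]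
    have := ih (N + 1) (letter 0 * F)
    rw [ev_aF, show N + 1 + n + 1 = N + n + 1 + 1 by ring] at this
    rw [this]
    simp only [zero_add]
    ring

theorem ev_Fadp (N n : ℕ) (α : ℕ → R) (q : ℕ) (F : NC (Fin 2) K) :
    ev (N + n + 1) α (q + 1) (F * adp n) = (α q - α (q + 1)) ^ n * ev N α q F := by
  induction n generalizing N F with
  | zero => rw [adp, add_zero, ev_Fb, pow_zero, one_mul]
  | succ n ih =>
    rw [adp_succ, mul_sub, ev_sub, ← mul_assoc, ← mul_assoc, ← add_assoc, ev_Fa, ih]
    have := ih (N + 1) (F * letter 0)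
    rw [ev_Fa, show N + 1 + n + 1 = N + n + 1 + 1 by ring] at this
    rw [this]
    ring

/-- `ev` vanishes when there are no words with `q` letters `1`. -/
theorem ev_eq_zero (N : ℕ) (α : ℕ → R) (q : ℕ) (F : NC (Fin 2) K)
    (h : ∀ w : List (Fin 2), w.count 1 = q → F w = 0) : ev N α q F = 0 := by
  induction N generalizing α q F with
  | zero => cases q with
    | zero => simp only [ev]; rw [h [] (by simp), map_zero]
    | succ q => simp [ev]
  | succ N ih =>
    cases q with
    | zero =>
      simp only [ev]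
      rw [h [] (by simp), ih _ _ _ (fun w hw => by
        rw [D_apply]; exact h _ (by rw [List.count_cons_of_ne (by decide)]; exact hw))]
      simp
    | succ q =>
      simp only [ev]
      rw [ih _ _ _ (fun w hw => by
        rw [D_apply]; exact h _ (by rw [List.count_cons_of_ne (by decide)]; exact hw)),
        ih _ _ _ (fun w hw => by
        rw [D_apply]; exact h _ (by rw [List.count_cons_self, hw]))]
      simp

/-- `ev` only depends on `α` up to `q`. -/
theorem ev_congr (N : ℕ) (α β : ℕ → R) (q : ℕ) (F : NC (Fin 2) K)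
    (h : ∀ i ≤ q, α i = β i) : ev N α q F = ev N β q F := by
  induction N generalizing α β q F with
  | zero => cases q <;> simp [ev]
  | succ N ih =>
    cases q with
    | zero => simp only [ev]; rw [ih _ _ _ _ h, h 0 le_rfl]
    | succ q =>
      simp only [ev]
      rw [ih _ _ _ _ h, h 0 (Nat.zero_le _), ih (fun i => α (i + 1)) (fun i => β (i + 1)) q _
        (fun i hi => h _ (by omega))]

theorem ev_map {S : Type} [CommRing S] [Algebra K S] (φ : R →ₐ[K] S) (N : ℕ) (α : ℕ → R) (q : ℕ)
    (F : NC (Fin 2) K) : φ (ev N α q F) = ev N (fun i => φ (α i)) q F := by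
  induction N generalizing α q F with
  | zero => cases q <;> simp [ev]
  | succ N ih =>
    cases q with
    | zero => simp only [ev, map_add, map_mul, ih, AlgHom.commutes]
    | succ q => simp only [ev, map_add, map_mul, ih]

/-- Injectivity of the generic evaluation. -/
theorem ev_inj (N : ℕ) (s q : ℕ) (F : NC (Fin 2) K)
    (h : ev N (fun i => (MvPolynomial.X (i + s) : MvPolynomial ℕ K)) q F = 0)
    (w : List (Fin 2)) (hw : w.length ≤ N) (hq : w.count 1 = q) : F w = 0 := by
  induction N generalizing s q F w with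
  | zero =>
    obtain rfl : w = [] := List.length_eq_zero_iff.mp (by omega)
    obtain rfl : q = 0 := by simpa using hq.symm
    simp only [ev] at h
    exact (map_eq_zero_iff _ (MvPolynomial.C_injective ℕ K)).mp h
  | succ N ih =>
    set φ : MvPolynomial ℕ K →ₐ[K] MvPolynomial ℕ K :=
      MvPolynomial.aeval (fun i => if i = s then 0 else MvPolynomial.X i) with hφ
    have hφs : φ (MvPolynomial.X s) = 0 := by rw [hφ, MvPolynomial.aeval_X, if_pos rfl]
    have hφi : ∀ i, φ (MvPolynomial.X (i + 1 + s)) = MvPolynomial.X (i + 1 + s) := by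
      intro i
      rw [hφ, MvPolynomial.aeval_X, if_neg (by omega)]
    cases q with
    | zero =>
      simp only [ev, zero_add] at h
      have h1 := congrArg φ h
      rw [map_add, map_mul, hφs, zero_mul, add_zero, map_zero, AlgHom.commutes] at h1
      have h2 : F [] = 0 := (map_eq_zero_iff _ (MvPolynomial.C_injective ℕ K)).mp h1
      rw [h2, map_zero, zero_add, mul_eq_zero] at h
      have h3 := h.resolve_left (MvPolynomial.X_ne_zero s)
      cases w with
      | nil => exact h2
      | cons x w =>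
        have hx : x = 0 := by
          by_contra hx
          have : x = 1 := by omega
          rw [this, List.count_cons_self] at hq
          omega
        subst hx
        rw [List.count_cons_of_ne (by decide)] at hq
        simp only [List.length_cons] at hw
        exact ih s 0 (D 0 F) h3 w (by omega) hq
    | succ q =>
      simp only [ev, zero_add] at h
      have h1 := congrArg φ h
      rw [map_add, map_mul, hφs, zero_mul, zero_add, map_zero, ev_map] at h1
      simp only [hφi] at h1
      have h4 : ev N (fun i => (MvPolynomial.X (i + 1 + s) : MvPolynomial ℕ K)) q (D 1 F) = 0 := h1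
      rw [h4, add_zero, mul_eq_zero] at h
      have h3 := h.resolve_left (MvPolynomial.X_ne_zero s)
      cases w with
      | nil => simp at hq
      | cons x w =>
        simp only [List.length_cons] at hw
        rcases (show x = 0 ∨ x = 1 by omega) with hx | hx
        · subst hx
          rw [List.count_cons_of_ne (by decide)] at hq
          exact ih s (q + 1) (D 0 F) h3 w (by omega) hq
        · subst hx
          rw [List.count_cons_self] at hq
          refine ih (s + 1) q (D 1 F) ?_ w (by omega) (by omega)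
          simpa only [show ∀ i, i + (s + 1) = i + 1 + s from fun i => by ring] using h4

/-- The cyclic identity. -/
theorem cyc (N : ℕ) (α : ℕ → R) (q : ℕ) (hα : α (q + 1) = α 0) (z v : NC (Fin 2) K)
    (h1 : ⁅(letter 0 : NC (Fin 2) K), v⁆ + ⁅(letter 1 : NC (Fin 2) K), z⁆ = 0) :
    ev N (fun i => α (i + 1)) q z = ev N α q z := by
  have h := congrArg (ev (N + 1) α (q + 1)) h1
  rw [Ring.lie_def, Ring.lie_def, ev_add, ev_sub, ev_sub, ev_aF, ev_Fa, ev_bF, ev_Fb, ev_zero,
    hα, sub_self, zero_add, sub_eq_zero] at h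
  exact h

theorem ev_lie_a (N : ℕ) (α : ℕ → R) (q : ℕ) (V : NC (Fin 2) K) :
    ev (N + 1) α q ⁅(letter 0 : NC (Fin 2) K), V⁆ = (α 0 - α q) * ev N α q V := by
  rw [Ring.lie_def, ev_sub, ev_aF, ev_Fa]; ring

theorem ev_lie_b (N : ℕ) (α : ℕ → R) (q : ℕ) (V : NC (Fin 2) K) :
    ev (N + 1) α (q + 1) ⁅(letter 1 : NC (Fin 2) K), V⁆ =
      ev N (fun i => α (i + 1)) q V - ev N α q V := by
  rw [Ring.lie_def, ev_sub, ev_bF, ev_Fb]

theorem ev_lie_adp (N n : ℕ) (α : ℕ → R) (q : ℕ) (V : NC (Fin 2) K) :
    ev (N + n + 1) α (q + 1) ⁅(adp n : NC (Fin 2) K), V⁆ =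
      (α 0 - α 1) ^ n * ev N (fun i => α (i + 1)) q V - (α q - α (q + 1)) ^ n * ev N α q V := by
  rw [Ring.lie_def, ev_sub, ev_adpF, ev_Fadp]

/-- Product of supports. -/
theorem mul_supp {p q : ℕ} {f g : NC (Fin 2) K} (hf : ∀ w : List (Fin 2), w.count 1 ≠ p → f w = 0)
    (hg : ∀ w : List (Fin 2), w.count 1 ≠ q → g w = 0) :
    ∀ w : List (Fin 2), w.count 1 ≠ p + q → (f * g) w = 0 := by
  intro w hw
  rw [mul_apply]
  refine Finset.sum_eq_zero fun i _ => ?_
  by_cases h1 : (w.take i).count 1 = p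
  · by_cases h2 : (w.drop i).count 1 = q
    · exfalso
      apply hw
      rw [← h1, ← h2, ← List.count_append, List.take_append_drop]
    · rw [hg _ h2, mul_zero]
  · rw [hf _ h1, zero_mul]

theorem letter0_supp (w : List (Fin 2)) (hw : w.count 1 ≠ 0) : (letter 0 : NC (Fin 2) K) w = 0 := by
  simp only [letter, mk_apply]
  rw [if_neg]
  rintro rfl
  simp at hw

theorem letter1_supp (w : List (Fin 2)) (hw : w.count 1 ≠ 1) : (letter 1 : NC (Fin 2) K) w = 0 := by
  simp only [letter, mk_apply]
  rw [if_neg]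
  rintro rfl
  simp at hw

theorem adp_supp (n : ℕ) : ∀ w : List (Fin 2), w.count 1 ≠ 1 → (adp n : NC (Fin 2) K) w = 0 := by
  induction n with
  | zero => exact fun w hw => letter1_supp w hw
  | succ n ih =>
    intro w hw
    rw [adp_succ, NC.sub_apply, mul_supp (p := 0) (q := 1) letter0_supp ih w (by simpa using hw),
      mul_supp (p := 1) (q := 0) ih letter0_supp w (by simpa using hw), sub_zero]

theorem adp_isHom (n : ℕ) : IsHom (n + 1) (adp n : NC (Fin 2) K) := by
  have hl : ∀ x : Fin 2, IsHom 1 (letter x : NC (Fin 2) K) := by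
    intro x w hw
    simp only [letter, mk_apply]
    rw [if_neg]
    rintro rfl
    simp at hw
  induction n with
  | zero => exact hl 1
  | succ n ih =>
    rw [adp]
    have := (hl 0).lie ih
    rwa [show 1 + (n + 1) = n + 1 + 1 by ring] at this

theorem adp_isLie (n : ℕ) : IsLie (adp n : NC (Fin 2) K) := by
  induction n with
  | zero => exact isLie_letter 1
  | succ n ih => exact (isLie_letter 0).lie ih

theorem ev_adp (N n : ℕ) (hN : n + 1 ≤ N) (α : ℕ → R) :
    ev N α 1 (adp n : NC (Fin 2) K) = (α 0 - α 1) ^ n := by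
  obtain ⟨M, rfl⟩ := Nat.exists_eq_add_of_le hN
  have := ev_adpF M n α 0 (1 : NC (Fin 2) K)
  rw [mul_one, ev_one, if_pos rfl, mul_one] at this
  rw [show n + 1 + M = M + n + 1 by ring, this]

theorem ev_lie_adp_adp (N n m : ℕ) (α : ℕ → R) (q : ℕ) (hq : q ≠ 2) :
    ev N α q ⁅(adp n : NC (Fin 2) K), (adp m : NC (Fin 2) K)⁆ = 0 := by
  refine ev_eq_zero N α q _ fun w hw => ?_
  rw [Ring.lie_def, NC.sub_apply, mul_supp (adp_supp n) (adp_supp m) w (by omega),
    mul_supp (adp_supp m) (adp_supp n) w (by omega), sub_zero]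

end ev

section lie

variable {K : Type} [Field K]

theorem shA (t : ℕ) (f : NC (Fin 2) K) :
    sh [0] (List.replicate t 0) f = ((t : K) + 1) * f (List.replicate (t + 1) 0) := by
  induction t generalizing f with
  | zero => simp
  | succ t ih =>
    rw [List.replicate_succ, sh_cons_cons, sh_nil_left, ih, D_apply, D_apply]
    rw [List.replicate_succ (n := t + 1), List.replicate_succ (n := t)]
    push_cast
    ring

theorem shB (s t : ℕ) (f : NC (Fin 2) K) :
    sh [0] (List.replicate s 0 ++ 1 :: List.replicate t 0) f =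
      ((s : K) + 1) * f (List.replicate (s + 1) 0 ++ 1 :: List.replicate t 0) +
      ((t : K) + 1) * f (List.replicate s 0 ++ 1 :: List.replicate (t + 1) 0) := by
  induction s generalizing f with
  | zero =>
    simp only [List.replicate_zero, List.nil_append]
    rw [sh_cons_cons, sh_nil_left, shA, D_apply, D_apply]
    simp
  | succ s ih =>
    rw [List.replicate_succ, List.cons_append, sh_cons_cons, sh_nil_left, ih, D_apply, D_apply,
      D_apply]
    rw [List.replicate_succ (n := s + 1), List.replicate_succ (n := s)]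
    simp only [List.cons_append]
    push_cast
    ring

theorem wt_eq (i p : ℕ) (w : List (Fin 2)) :
    wt ![i, p] w = w.count 0 * i + w.count 1 * p := by
  induction w with
  | nil => simp [wt_nil]
  | cons x w ih =>
    rw [wt_cons, ih]
    rcases (show x = 0 ∨ x = 1 by omega) with hx | hx
    · subst hx
      rw [List.count_cons_self, List.count_cons_of_ne (by decide)]
      simp only [Matrix.cons_val_zero]
      ring
    · subst hx
      rw [List.count_cons_self, List.count_cons_of_ne (by decide)]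
      simp only [Matrix.cons_val_one, Matrix.cons_val_zero]
      ring

theorem eq_replicate_of_count {w : List (Fin 2)} (h : w.count 1 = 0) :
    w = List.replicate (w.count 0) 0 := by
  induction w with
  | nil => simp
  | cons x w ih =>
    rcases (show x = 0 ∨ x = 1 by omega) with hx | hx
    · subst hx
      rw [List.count_cons_of_ne (by decide)] at h
      rw [List.count_cons_self, List.replicate_succ, ← ih h]
    · subst hx
      rw [List.count_cons_self] at h
      omega

theorem eq_of_count_one {w : List (Fin 2)} (h : w.count 1 = 1) :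
    ∃ s t, s + t = w.count 0 ∧ w = List.replicate s 0 ++ 1 :: List.replicate t 0 := by
  have hm : (1 : Fin 2) ∈ w := by
    rw [← List.count_pos_iff]; omega
  obtain ⟨u, v, rfl⟩ := List.append_of_mem hm
  rw [List.count_append, List.count_cons_self] at h
  refine ⟨u.count 0, v.count 0, ?_, ?_⟩
  · rw [List.count_append, List.count_cons_of_ne (by decide)]
  · rw [← eq_replicate_of_count (show u.count 1 = 0 by omega),
      ← eq_replicate_of_count (show v.count 1 = 0 by omega)]

theorem letter_isHom (x : Fin 2) : IsHom 1 (letter x : NC (Fin 2) K) := by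
  intro w hw
  simp only [letter, mk_apply]
  rw [if_neg]
  rintro rfl
  simp at hw

theorem adp_coeff (e : ℕ) : (adp e : NC (Fin 2) K) (List.replicate e 0 ++ [1]) = 1 := by
  induction e with
  | zero => simp [adp, letter]
  | succ e ih =>
    rw [adp_succ, NC.sub_apply]
    rw [mul_append_right (letter_isHom 0) (show ([1] : List (Fin 2)).length = 1 from rfl)]
    have h0 : (letter 0 : NC (Fin 2) K) [1] = 0 := by simp [letter]
    rw [h0, mul_zero, sub_zero, List.replicate_succ, List.cons_append, ← D_apply, D0_aF, ih]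

variable [CharZero K]

theorem one_b (i p n : ℕ) (hi : 0 < i) (hn : n ≠ i) (F : NC (Fin 2) K)
    (hF : ∀ w, wt ![i, p] w ≠ n → F w = 0) (hL : IsLie F)
    (h2 : ∀ w : List (Fin 2), 2 ≤ w.count 1 → F w = 0) :
    ∃ (e : ℕ) (c : K), F = c • (adp e : NC (Fin 2) K) ∧ (c ≠ 0 → p + e * i = n) := by
  have hL' := (isLie_iff F).mp hL
  have h0 : ∀ w : List (Fin 2), w.count 1 = 0 → F w = 0 := by
    intro w hw
    rcases eq_or_ne (wt ![i, p] w) n with h | h
    · rw [wt_eq, hw, zero_mul, add_zero] at h
      have hw' := eq_replicate_of_count hw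
      generalize w.count 0 = k at h hw'
      subst hw'
      rcases k with _ | _ | k
      · simpa using hL'.1
      · exfalso; apply hn; rw [← h]; ring
      · have h3 := hL'.2 [0] (List.replicate (k + 1) 0) (by simp) (by simp)
        rw [shA, mul_eq_zero] at h3
        refine h3.resolve_left ?_
        have : ((k + 1 + 1 : ℕ) : K) ≠ 0 := Nat.cast_ne_zero.mpr (by omega)
        push_cast at this ⊢
        exact this
    · exact hF w h
  by_cases he : ∃ e, p + e * i = n
  · obtain ⟨e, he⟩ := he
    refine ⟨e, F (List.replicate e 0 ++ [1]), ?_, fun _ => he⟩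
    set c := F (List.replicate e 0 ++ [1]) with hc
    have hG : IsLie (F - c • (adp e : NC (Fin 2) K)) := hL.sub ((adp_isLie e).smul c)
    have hG' := (isLie_iff _).mp hG
    set G := F - c • (adp e : NC (Fin 2) K) with hGd
    have hG0 : G (List.replicate e 0 ++ [1]) = 0 := by
      rw [hGd, NC.sub_apply, NC.smul_apply, adp_coeff, smul_eq_mul, mul_one, ← hc, sub_self]
    have hrec : ∀ t s, s + t = e → G (List.replicate s 0 ++ 1 :: List.replicate t 0) = 0 := by
      intro t
      induction t with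
      | zero => intro s hs; obtain rfl : s = e := by omega
                simpa using hG0
      | succ t ih =>
        intro s hs
        have h4 := hG'.2 [0] (List.replicate s 0 ++ 1 :: List.replicate t 0) (by simp) (by simp)
        rw [shB, ih (s + 1) (by omega), mul_zero, zero_add, mul_eq_zero] at h4
        refine h4.resolve_left ?_
        have : ((t + 1 : ℕ) : K) ≠ 0 := Nat.cast_ne_zero.mpr (by omega)
        push_cast at this
        exact this
    have hGz : G = 0 := by
      ext w
      rw [NC.zero_apply]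
      rcases Nat.lt_trichotomy (w.count 1) 1 with h | h | h
      · rw [hGd, NC.sub_apply, h0 w (by omega), NC.smul_apply, adp_supp e w (by omega), smul_zero,
          sub_zero]
      · obtain ⟨s, t, hst, hw⟩ := eq_of_count_one h
        by_cases hst' : s + t = e
        · rw [hw]; exact hrec t s hst'
        · have hlen : w.length ≠ e + 1 := by
            rw [hw]; simp; omega
          rw [hGd, NC.sub_apply, NC.smul_apply, adp_isHom e w hlen, smul_zero, sub_zero]
          apply hF
          rw [wt_eq, h, ← hst, ← he]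
          intro h5
          apply hst'
          have h6 : (s + t) * i = e * i := by omega
          exact Nat.eq_of_mul_eq_mul_right hi h6
      · rw [hGd, NC.sub_apply, h2 w (by omega), NC.smul_apply, adp_supp e w (by omega), smul_zero,
          sub_zero]
    rw [hGd, sub_eq_zero] at hGz
    exact hGz
  · refine ⟨0, 0, ?_, fun h => absurd rfl h⟩
    rw [zero_smul]
    ext w
    rw [NC.zero_apply]
    rcases Nat.lt_trichotomy (w.count 1) 1 with h | h | h
    · exact h0 w (by omega)
    · apply hF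
      rw [wt_eq, h]
      intro h5
      exact he ⟨w.count 0, by omega⟩
    · exact h2 w (by omega)

theorem low_core (n : ℕ) (hn : 1 ≤ n) (z v : NC (Fin 2) K)
    (h1 : ⁅(letter 0 : NC (Fin 2) K), v⁆ + ⁅(letter 1 : NC (Fin 2) K), z⁆ = 0)
    (h2 : ∀ (N q : ℕ) (α : ℕ → MvPolynomial ℕ K), 2 ≤ q → α (q + 1) = α 0 →
      (α 0 - α 1) ^ n * ev N (fun i => α (i + 1)) q z -
        (α q - α (q + 1)) ^ n * ev N α q z = 0) :
    ∀ w : List (Fin 2), 2 ≤ w.count 1 → z w = 0 := by
  intro w hw
  set q := w.count 1 with hq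
  set N := w.length with hN
  set α : ℕ → MvPolynomial ℕ K := fun i => if i = q + 1 then MvPolynomial.X 0
    else MvPolynomial.X i with hα
  have a0 : α 0 = MvPolynomial.X 0 := by simp [hα]
  have a1 : α 1 = MvPolynomial.X 1 := by simp only [hα]; rw [if_neg (by omega)]
  have aq : α q = MvPolynomial.X q := by simp only [hα]; rw [if_neg (by omega)]
  have aq1 : α (q + 1) = MvPolynomial.X 0 := by simp [hα]
  have h3 := h2 N q α hw (by rw [aq1, a0])
  rw [cyc N α q (by rw [aq1, a0]) z v h1, ← sub_mul, mul_eq_zero, a0, a1, aq, aq1] at h3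
  have h4 : (MvPolynomial.X 0 - MvPolynomial.X 1 : MvPolynomial ℕ K) ^ n -
      (MvPolynomial.X q - MvPolynomial.X 0) ^ n ≠ 0 := by
    intro h5
    have h6 := congrArg (MvPolynomial.aeval (fun i : ℕ => if i = 1 then (1 : K) else 0)) h5
    simp only [map_sub, map_pow, MvPolynomial.aeval_X, map_zero] at h6
    rw [if_neg (by decide), if_pos trivial, if_neg (by omega), sub_self, zero_pow (by omega),
      sub_zero, zero_sub] at h6
    exact (pow_ne_zero n (neg_ne_zero.mpr one_ne_zero)) h6
  have h5 := h3.resolve_left h4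
  refine ev_inj N 0 q z ?_ w le_rfl rfl
  rw [← h5]
  refine ev_congr N _ _ q z fun i hi => ?_
  simp only [hα, add_zero]
  rw [if_neg (by omega)]

theorem even_of_pow {n : ℕ} (h : (-1 : K) ^ n = 1) : Even n :=
  (neg_one_pow_eq_one_iff_even (by
    intro h
    have h2 : (2 : K) = 0 := by linear_combination -h
    exact two_ne_zero h2)).mp h

/-- If `c • adp e` satisfies the cyclic identity then `e` is even. -/
theorem even_of_cyc (e : ℕ) (c : K) (hc : c ≠ 0) (v : NC (Fin 2) K)
    (h1 : ⁅(letter 0 : NC (Fin 2) K), v⁆ + ⁅(letter 1 : NC (Fin 2) K), c • (adp e : NC (Fin 2) K)⁆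
      = 0) : Even e := by
  have h := cyc (e + 1) (fun i => if i = 1 then (0 : K) else 1) 1 (by simp) _ v h1
  rw [ev_smul, ev_smul, ev_adp _ _ le_rfl, ev_adp _ _ le_rfl] at h
  simp only [zero_add, if_true, Nat.reduceAdd, if_neg (show ¬ (2 = 1) by decide),
    if_neg (show ¬ (0 = 1) by decide), sub_zero, one_pow, mul_one, zero_sub] at h
  have hc' : algebraMap K K c ≠ 0 := by simpa using hc
  have h' : algebraMap K K c * (-1) ^ e = algebraMap K K c * 1 := by rw [mul_one]; simpa using h
  exact even_of_pow (mul_left_cancel₀ hc' h')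

end lie

section packet

theorem adp_even {K : Type} [Field K] [CharZero K] (n k : ℕ)
    (V : NC (Fin 2) K) (hV : ∃ N, ∀ w : List (Fin 2), N < w.length → V w = 0)
    (h : ⁅(letter 0 : NC (Fin 2) K), V⁆ + ⁅(adp n : NC (Fin 2) K), (adp (2 * k) : NC (Fin 2) K)⁆ = 0) : Even n := by
  have h' := congrArg (ev (2 * k + 1 + n + 1) (fun i => if i = 1 then (0 : K) else 1) 2) h
  rw [ev_add, ev_lie_a, ev_lie_adp, ev_adp _ _ le_rfl, ev_adp _ _ le_rfl, ev_zero] at h'
  simp only [zero_add, if_true, Nat.reduceAdd, if_neg (show ¬ (2 = 1) by decide),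
    if_neg (show ¬ (0 = 1) by decide), sub_zero, one_pow, mul_one, zero_sub, sub_self, zero_mul,
    one_mul] at h'
  rw [pow_mul, neg_one_sq, one_pow, sub_eq_zero] at h'
  exact even_of_pow h'.symm

theorem y_form {K : Type} [Field K] [CharZero K] (i p j n : ℕ) (hi : 0 < i) (hip : i < p) (hpj : p < j)
    (y v V : NC (Fin 2) K) (hyL : IsLie y) (hy : ∀ w, wt ![i, p] w ≠ j → y w = 0) (hy0 : y ≠ 0)
    (hv : ∃ N, ∀ w : List (Fin 2), N < w.length → v w = 0) (hV : ∃ N, ∀ w : List (Fin 2), N < w.length → V w = 0)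
    (hn : 1 ≤ n) (h1 : ⁅(letter 0 : NC (Fin 2) K), v⁆ + ⁅(letter 1 : NC (Fin 2) K), y⁆ = 0)
    (h2 : ⁅(letter 0 : NC (Fin 2) K), V⁆ + ⁅(adp n : NC (Fin 2) K), y⁆ = 0) :
    ∃ (k : ℕ) (μ : K), 1 ≤ k ∧ μ ≠ 0 ∧ y = μ • (adp (2 * k) : NC (Fin 2) K) ∧ Even n := by
  have h3 : ∀ w : List (Fin 2), 2 ≤ w.count 1 → y w = 0 := by
    refine low_core n hn y v h1 fun N q α hq hα => ?_
    have h := congrArg (ev (N + n + 1) α (q + 1)) h2
    rw [ev_add, ev_lie_a, ev_lie_adp, ev_zero, hα, sub_self, zero_mul, zero_add] at h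
    rw [hα]; exact h
  obtain ⟨e, c, hc, hce⟩ := one_b i p j hi (by omega) y hy hyL h3
  have hc0 : c ≠ 0 := by
    rintro rfl
    exact hy0 (by rw [hc, zero_smul])
  have hce' := hce hc0
  rw [hc] at h1 h2
  obtain ⟨k, hk⟩ := even_of_cyc e c hc0 v h1
  have hk2 : e = 2 * k := by omega
  subst hk2
  refine ⟨k, c, ?_, hc0, hc, ?_⟩
  · rcases Nat.eq_zero_or_pos k with h | h
    · subst h
      simp at hce'
      omega
    · exact h
  · refine adp_even n k (c⁻¹ • V) ?_ ?_
    · obtain ⟨N, hN⟩ := hV
      exact ⟨N, fun w hw => by rw [NC.smul_apply, hN w hw, smul_zero]⟩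
    · have := congrArg (fun f => c⁻¹ • f) h2
      simp only [smul_add, smul_zero] at this
      rw [← this]
      simp only [Ring.lie_def, mul_smul_comm, smul_mul_assoc, ← smul_sub, smul_smul,
        inv_mul_cancel₀ hc0, one_smul]

theorem z_form {K : Type} [Field K] [CharZero K] (i p n : ℕ) (hi : 0 < i) (hip : i < p) (hn : n ≠ i)
    (z v : NC (Fin 2) K) (hzL : IsLie z) (hz : ∀ w, wt ![i, p] w ≠ n → z w = 0)
    (hv : ∃ N, ∀ w : List (Fin 2), N < w.length → v w = 0)
    (h1 : ⁅(letter 0 : NC (Fin 2) K), v⁆ + ⁅(letter 1 : NC (Fin 2) K), z⁆ = 0)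
    (h2 : ∀ w : List (Fin 2), 2 ≤ w.count 1 → z w = 0) :
    ∃ (k : ℕ) (c : K), z = c • (adp (2 * k) : NC (Fin 2) K) ∧ (c ≠ 0 → p + 2 * k * i = n) := by
  obtain ⟨e, c, hc, hce⟩ := one_b i p n hi hn z hz hzL h2
  by_cases hc0 : c = 0
  · refine ⟨0, 0, ?_, fun h => absurd rfl h⟩
    rw [hc, hc0, zero_smul, zero_smul]
  · rw [hc] at h1
    obtain ⟨k, hk⟩ := even_of_cyc e c hc0 v h1
    have hk2 : e = 2 * k := by omega
    subst hk2
    exact ⟨k, c, hc, hce⟩

theorem z_low {K : Type} [Field K] [CharZero K] (n n' m : ℕ) (c : K) (hn : 1 ≤ n)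
    (z v V : NC (Fin 2) K) (hz : ∃ N, ∀ w : List (Fin 2), N < w.length → z w = 0)
    (hv : ∃ N, ∀ w : List (Fin 2), N < w.length → v w = 0) (hV : ∃ N, ∀ w : List (Fin 2), N < w.length → V w = 0)
    (h1 : ⁅(letter 0 : NC (Fin 2) K), v⁆ + ⁅(letter 1 : NC (Fin 2) K), z⁆ = 0)
    (h2 : ⁅(letter 0 : NC (Fin 2) K), V⁆ + c • ⁅(adp n' : NC (Fin 2) K), (adp m : NC (Fin 2) K)⁆ +
      ⁅(adp n : NC (Fin 2) K), z⁆ = 0) :
    ∀ w : List (Fin 2), 2 ≤ w.count 1 → z w = 0 := by
  refine low_core n hn z v h1 fun N q α hq hα => ?_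
  have h := congrArg (ev (N + n + 1) α (q + 1)) h2
  rw [ev_add, ev_add, ev_smul, ev_lie_a, ev_lie_adp_adp _ _ _ _ _ (by omega), ev_lie_adp, ev_zero,
    hα, sub_self, zero_mul, zero_add, mul_zero, zero_add] at h
  rw [hα]; exact h

theorem no_top {K : Type} [Field K] [CharZero K] (n n' k : ℕ) (c c' : K) (hk : 1 ≤ k)
    (z v V V' : NC (Fin 2) K) (hz : ∃ N, ∀ w : List (Fin 2), N < w.length → z w = 0)
    (hv : ∃ N, ∀ w : List (Fin 2), N < w.length → v w = 0) (hV : ∃ N, ∀ w : List (Fin 2), N < w.length → V w = 0)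
    (hV' : ∃ N, ∀ w : List (Fin 2), N < w.length → V' w = 0)
    (h1 : ⁅(letter 0 : NC (Fin 2) K), v⁆ + ⁅(letter 1 : NC (Fin 2) K), (adp (2 * k) : NC (Fin 2) K)⁆ = 0)
    (h2 : ⁅(letter 0 : NC (Fin 2) K), V'⁆ + ⁅(letter 1 : NC (Fin 2) K), z⁆ = 0)
    (h3 : ⁅(letter 0 : NC (Fin 2) K), V⁆ + c • ⁅(adp n' : NC (Fin 2) K), (adp (2 * k) : NC (Fin 2) K)⁆ +
      c' • ⁅(adp n : NC (Fin 2) K), z⁆ + ⁅(letter 1 : NC (Fin 2) K), v⁆ = 0) : False := by
  set α : ℕ → K := fun i => if i = 1 then -1 else if i = 2 then 1 else 0 with hα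
  have a0 : α 0 = 0 := by simp [hα]
  have a1 : α 1 = -1 := by simp [hα]
  have a2 : α 2 = 1 := by simp [hα]
  have a3 : α 3 = 0 := by simp [hα]
  set M := 2 * k + 1 + n with hM
  have e1 := congrArg (ev (M + 1) α 2) h1
  rw [ev_add, ev_lie_a, ev_lie_b, ev_adp _ _ (by omega), ev_adp _ _ (by omega), ev_zero] at e1
  have e2 := congrArg (ev (M + 1) (fun i => α (i + 1)) 2) h1
  rw [ev_add, ev_lie_a, ev_lie_b, ev_adp _ _ (by omega), ev_adp _ _ (by omega), ev_zero] at e2
  have e3 := cyc (2 * k + 1) α 2 (by rw [a3, a0]) z V' h2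
  have e4 := congrArg (ev (M + 1) α 3) h3
  rw [ev_add, ev_add, ev_add, ev_smul, ev_smul, ev_lie_a, ev_lie_adp_adp _ _ _ _ _ (by omega),
    ev_lie_b, hM, ev_lie_adp, ev_zero, e3] at e4
  simp only [zero_add, Nat.reduceAdd, a0, a1, a2, a3] at e1 e2 e4
  rw [← hM] at e4
  have h4 : ((-2 : K)) ^ (2 * k) = 4 ^ k := by rw [pow_mul]; norm_num
  have e1' : -ev M α 2 v + (4 ^ k - 1) = 0 := by
    have : (-1 - 1 : K) = -2 := by norm_num
    rw [this, h4] at e1
    simpa using e1
  have e2' : -ev M (fun i => α (i + 1)) 2 v + (1 - 4 ^ k) = 0 := by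
    have : (-1 - 1 : K) = -2 := by norm_num
    rw [this, h4] at e2
    simpa using e2
  have e4' : ev M (fun i => α (i + 1)) 2 v - ev M α 2 v = 0 := by
    simpa using e4
  have h5 : (4 : K) ^ k = 1 := by
    have h6 : (2 : K) * (1 - 4 ^ k) = 0 := by linear_combination e2' - e1' + e4'
    have h7 := (mul_eq_zero.mp h6).resolve_left two_ne_zero
    linear_combination -h7
  have h6 : (4 : ℕ) ^ k = 1 := by
    have : ((4 ^ k : ℕ) : K) = ((1 : ℕ) : K) := by push_cast; exact h5
    exact Nat.cast_injective this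
  have h7 : 4 ≤ 4 ^ k := by
    calc 4 = 4 ^ 1 := by norm_num
      _ ≤ 4 ^ k := Nat.pow_le_pow_right (by norm_num) hk
  omega

theorem adp_of_lie {K : Type} [Field K] [CharZero K] (i p n : ℕ) (hi : 0 < i) (hip : i < p) (hn : n ≠ i) (hn0 : 0 < n)
    (hn2 : n < 2 * p) (F : NC (Fin 2) K) (hF : ∀ w, wt ![i, p] w ≠ n → F w = 0) (hL : IsLie F) :
    ∃ (e : ℕ) (c : K), F = c • (adp e : NC (Fin 2) K) ∧ (c ≠ 0 → p + e * i = n) := by
  refine one_b i p n hi hn F hF hL fun w hw => hF w ?_
  rw [wt_eq]
  have : 2 * p ≤ w.count 1 * p := Nat.mul_le_mul_right p hw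
  omega

end packet

end Pool.Agent.Helper39.Comm
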